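import Pool.Agent.R804.LD.Lnk

/-! List colourings of the edges of good lists. -/

set_option autoImplicit false

namespace Pool.Agent.R804.LD

open Finset

variable {D : ℕ} {V : Type} [DecidableEq V]

lemma card_inE (l : List (V × V)) (v : V) :
    (univ.filter (fun i : Fin l.length => inE v (l.get i))).card = dg l v := by
  induction l with
  | nil => rfl
  | cons e l ih =>
    have h1 := Fin.card_filter_univ_succ (n := l.length)
      (fun i : Fin (l.length + 1) => inE v ((e :: l).get i))
    refine h1.trans ?_
    rw [dg_cons, ← ih]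
    have h2 : (univ.filter (fun i : Fin l.length => inE v ((e :: l).get i.succ))) =
        univ.filter (fun i : Fin l.length => inE v (l.get i)) := rfl
    rw [h2]
    have h3 : inE v ((e :: l).get (0 : Fin (l.length + 1))) ↔ (v = e.1 ∨ v = e.2) := Iff.rfl
    by_cases h : v = e.1 ∨ v = e.2
    · rw [if_pos (h3.2 h), if_pos h]
    · rw [if_neg (fun h' => h (h3.1 h')), if_neg h, add_zero]

variable [Fintype V]

open Pool.Agent.W426.LE in
/-- regular structures with a nonzero signed number of colourings -/
theorem reg_choose (l : List (V × V)) (hl : ∀ e ∈ l, e.1 ≠ e.2) (hd : ∀ v, dg l v = D)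
    (hA : A l (fun _ => (∅ : Finset (Fin D))) ≠ 0) (L : Fin l.length → Finset ℕ)
    (hL : ∀ i, D ≤ (L i).card) : ∃ f : Fin l.length → ℕ, (∀ i, f i ∈ L i) ∧
      ∀ v i j, inE v (l.get i) → inE v (l.get j) → f i = f j → i = j := by
  let P : V → Finset (Fin l.length) := fun v => univ.filter (fun i => inE v (l.get i))
  have hP : ∀ v, (P v).card = D := fun v => (card_inE l v).trans (hd v)
  let φ : ∀ v, Fin D ↪o Fin l.length := fun v => (P v).orderEmbOfFin (hP v)
  have hmem : ∀ v i, inE v (l.get i) ↔ ∃ a, φ v a = i := by
    intro v i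
    have h1 : Set.range (φ v) = (P v : Set (Fin l.length)) := range_orderEmbOfFin _ _
    have h2 : i ∈ Set.range (φ v) ↔ i ∈ (P v : Set (Fin l.length)) := by rw [h1]
    rw [Set.mem_range] at h2
    rw [h2]
    simp [P]
  have hNN : NN (Equiv.refl (Fin D)) (fun v a => φ v a) = A l (fun _ => (∅ : Finset (Fin D))) := by
    rw [A_eq]
    unfold NN
    refine sum_congr (Finset.ext fun x => by simp) fun x _ => ?_
    rw [WW_empty l hl]
    refine prod_congr rfl fun v _ => ?_
    rw [sg_eq_prod]
    have h1 : univ.filter (fun i => inE v (l.get i)) = univ.map (φ v).toEmbedding := by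
      ext i
      simp only [mem_filter, mem_univ, true_and, mem_map]
      exact hmem v i
    rw [h1, prod_map]
    refine prod_congr rfl fun a _ => ?_
    have h2 : univ.filter (fun j => inE v (l.get j) ∧ j < (φ v).toEmbedding a) =
        (Iio a).map (φ v).toEmbedding := by
      ext j
      simp only [mem_filter, mem_univ, true_and, mem_map, mem_Iio]
      constructor
      · rintro ⟨h3, h4⟩
        obtain ⟨b, rfl⟩ := (hmem v j).1 h3
        exact ⟨b, (φ v).lt_iff_lt.1 h4, rfl⟩
      · rintro ⟨b, h3, rfl⟩
        exact ⟨(hmem v _).2 ⟨b, rfl⟩, (φ v).lt_iff_lt.2 h3⟩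
    rw [h2, prod_map]
    rfl
  have hcard : ∀ e : Fin l.length, Fintype.card {q : V × Fin D // φ q.1 q.2 = e} = 2 := by
    intro e
    rw [Fintype.card_subtype]
    have hne := hl (l.get e) (List.get_mem l e)
    obtain ⟨a, ha⟩ := (hmem (l.get e).1 e).1 (Or.inl rfl)
    obtain ⟨b, hb⟩ := (hmem (l.get e).2 e).1 (Or.inr rfl)
    rw [card_eq_two]
    refine ⟨((l.get e).1, a), ((l.get e).2, b), fun h => hne (congrArg Prod.fst h), ?_⟩
    ext ⟨v, c⟩
    simp only [mem_filter, mem_univ, true_and, mem_insert, mem_singleton, Prod.mk.injEq]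
    constructor
    · intro h
      rcases (hmem v e).2 ⟨c, h⟩ with h1 | h1
      · left
        subst h1
        exact ⟨rfl, (φ _).injective (h.trans ha.symm)⟩
      · right
        subst h1
        exact ⟨rfl, (φ _).injective (h.trans hb.symm)⟩
    · rintro (⟨rfl, rfl⟩ | ⟨rfl, rfl⟩)
      · exact ha
      · exact hb
  have hcrit : S_CRIT := Pool.Agent.W440.LE.Crit.main Pool.Agent.W346.LE.CF.main
  obtain ⟨f, hf1, hf2⟩ := hcrit V (Fin l.length) (Fin D) (Fin D) (Equiv.refl _)
    (fun v a => φ v a) (fun e => by convert hcard e) (by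
      intro h0
      exact hA (hNN.symm.trans (by convert h0))) L (fun e => by
        rw [Fintype.card_fin]
        exact hL e)
  refine ⟨f, hf1, fun v i j hi hj hij => ?_⟩
  obtain ⟨a, rfl⟩ := (hmem v i).1 hi
  obtain ⟨b, rfl⟩ := (hmem v j).1 hj
  rw [hf2 v hij]

/-- good lists are list colourable -/
theorem good_choose (l : List (V × V)) (hl : ∀ e ∈ l, e.1 ≠ e.2) (hG : Good D l)
    (L : Fin l.length → Finset ℕ) (hL : ∀ i, D ≤ (L i).card) :
    ∃ f : Fin l.length → ℕ, (∀ i, f i ∈ L i) ∧
      ∀ v i j, inE v (l.get i) → inE v (l.get j) → f i = f j → i = j := by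
  obtain ⟨m, hm, hA⟩ := hG
  -- a list with `D - deg` copies of every vertex
  let S : List V := (univ : Finset V).toList.flatMap (fun v => List.replicate (m v).card v)
  have hS : ∀ v, S.count v = (m v).card := by
    intro v
    simp only [S]
    rw [List.count_flatMap]
    have h1 : ∀ w : V, (List.count v ∘ fun w => List.replicate (m w).card w) w =
        if w = v then (m v).card else 0 := by
      intro w
      simp only [Function.comp, List.count_replicate]
      by_cases h : w = v
      · subst h
        simp
      · simp [h]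
    rw [List.map_congr_left (fun w _ => h1 w), Finset.sum_map_toList]
    simp
  have hpos := dbl_pos l m hA S (fun _ => ∅) (fun v => rfl) (fun v => empty_subset _)
    (fun v => by rw [card_empty, zero_add, hS])
  have hl2 : ∀ e ∈ dbl S l, e.1 ≠ e.2 := by
    intro e he
    unfold dbl mp at he
    simp only [List.mem_append, List.mem_map] at he
    rcases he with ⟨v, _, rfl⟩ | ⟨e, he, rfl⟩ | ⟨e, he, rfl⟩
    · simp
    · intro h
      exact hl e he (i0_inj h)
    · intro h
      exact hl e he (i1_inj h)
  have hlen : (dbl S l).length = S.length + (l.length + l.length) := by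
    unfold dbl mp
    simp
  have hpos' : ∀ i : Fin l.length, S.length + i.1 < (dbl S l).length := fun i => by
    rw [hlen]
    omega
  have hget : ∀ i : Fin l.length, (dbl S l).get ⟨S.length + i.1, hpos' i⟩ =
      (i0 (l.get i).1, i0 (l.get i).2) := by
    intro i
    unfold dbl mp
    simp only [List.get_eq_getElem]
    rw [List.getElem_append_right (by simp)]
    simp only [List.length_map, Nat.add_sub_cancel_left]
    rw [List.getElem_append_left (by simp)]
    simp
  obtain ⟨f, hf1, hf2⟩ := reg_choose (dbl S l) hl2 (fun x => by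
    obtain ⟨v, b⟩ := x
    rw [dg_dbl, hS, hm]) hpos.ne'
    (fun k => if h : S.length ≤ k.1 ∧ k.1 - S.length < l.length then L ⟨k.1 - S.length, h.2⟩
      else range D) (fun k => by
        split_ifs with h
        · exact hL _
        · simp)
  refine ⟨fun i => f ⟨S.length + i.1, hpos' i⟩, fun i => ?_, fun v i j hi hj hij => ?_⟩
  · have h1 := hf1 ⟨S.length + i.1, hpos' i⟩
    have h2 : S.length ≤ S.length + i.1 ∧ S.length + i.1 - S.length < l.length := by
      have := i.2
      omega
    rw [dif_pos h2] at h1
    have h3 : (⟨S.length + i.1 - S.length, h2.2⟩ : Fin l.length) = i := by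
      ext
      simp
    rw [h3] at h1
    exact h1
  · have h1 := hf2 (i0 v) ⟨S.length + i.1, hpos' i⟩ ⟨S.length + j.1, hpos' j⟩ (by
      rw [hget]
      rcases hi with h | h
      · exact Or.inl (congrArg i0 h)
      · exact Or.inr (congrArg i0 h)) (by
      rw [hget]
      rcases hj with h | h
      · exact Or.inl (congrArg i0 h)
      · exact Or.inr (congrArg i0 h)) hij
    have h2 := congrArg Fin.val h1
    simp only at h2
    ext
    omega

end Pool.Agent.R804.LD
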