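import Mathlib

/-! Signed edge colourings with prescribed colour sets: the Lefschetz type inequality. -/

set_option autoImplicit false

namespace Pool.Agent.R804.LD

open Finset

variable {D : ℕ}

/-- the sign of `c - j` -/
def ss (c j : Fin D) : ℤ := if j < c then 1 else if c < j then -1 else 0

def eps (c : Fin D) (M : Finset (Fin D)) : ℤ := ∏ j ∈ M, ss c j

lemma ss_self (c : Fin D) : ss c c = 0 := by simp [ss]

lemma ss_sq {c d : Fin D} (h : c ≠ d) : ss c d * ss c d = 1 := by
  unfold ss
  rcases lt_or_gt_of_ne h with h | h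
  · simp [h, not_lt.2 h.le]
  · simp [h]

lemma eps_mem {c : Fin D} {M : Finset (Fin D)} (h : c ∈ M) : eps c M = 0 :=
  prod_eq_zero h (ss_self c)

lemma eps_insert {c d : Fin D} {M : Finset (Fin D)} (h : d ∉ M) :
    eps c (insert d M) = ss c d * eps c M := prod_insert h

lemma eps_sq {c : Fin D} {M : Finset (Fin D)} (h : c ∉ M) : eps c M * eps c M = 1 := by
  unfold eps
  rw [← prod_mul_distrib]
  refine prod_eq_one fun j hj => ss_sq ?_
  rintro rfl
  exact h hj

/-! ### the inequality -/

abbrev PP (D : ℕ) := Finset (Fin D) × Finset (Fin D)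

/-- toggle the element `c` in both sets -/
def tog (c : Fin D) (p : PP D) : PP D := (symmDiff p.1 {c}, symmDiff p.2 {c})

lemma tog_tog (c : Fin D) (p : PP D) : tog c (tog c p) = p := by
  unfold tog
  simp [symmDiff_symmDiff_cancel_right]

lemma tog_comm (c d : Fin D) (p : PP D) : tog c (tog d p) = tog d (tog c p) := by
  unfold tog
  ext x <;> simp only [symmDiff_assoc, symmDiff_comm {d} {c}]

lemma sd_not_mem {c : Fin D} {A : Finset (Fin D)} (h : c ∉ A) : symmDiff A {c} = insert c A := by
  ext x
  simp only [mem_symmDiff, mem_singleton, mem_insert]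
  constructor
  · rintro (⟨h1, _⟩ | ⟨h1, _⟩)
    · exact Or.inr h1
    · exact Or.inl h1
  · rintro (h1 | h1)
    · subst h1
      exact Or.inr ⟨rfl, h⟩
    · exact Or.inl ⟨h1, fun h2 => h (h2 ▸ h1)⟩

lemma mem_sd_self {c : Fin D} {A : Finset (Fin D)} : c ∈ symmDiff A {c} ↔ c ∉ A := by
  simp [mem_symmDiff]

lemma mem_sd_ne {c d : Fin D} {A : Finset (Fin D)} (h : c ≠ d) : c ∈ symmDiff A {d} ↔ c ∈ A := by
  simp [mem_symmDiff, h]

def togE (c : Fin D) : PP D ≃ PP D := ⟨tog c, tog c, tog_tog c, tog_tog c⟩

/-- the sign attached to `c`, independent of the membership of `c` -/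
def ee (c : Fin D) (p : PP D) : ℤ := eps c (p.1.erase c) * eps c (p.2.erase c)

lemma ee_sq (c : Fin D) (p : PP D) : ee c p * ee c p = 1 := by
  unfold ee
  have h1 := eps_sq (notMem_erase c p.1)
  have h2 := eps_sq (notMem_erase c p.2)
  calc _ = (eps c (p.1.erase c) * eps c (p.1.erase c)) *
        (eps c (p.2.erase c) * eps c (p.2.erase c)) := by ring
    _ = 1 := by rw [h1, h2]; norm_num

lemma erase_sd {c d : Fin D} {A : Finset (Fin D)} (h : c ≠ d) (hd : d ∉ A) :
    (symmDiff A {d}).erase c = insert d (A.erase c) := by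
  rw [sd_not_mem hd, erase_insert_of_ne h.symm]

lemma erase_sd_self {c : Fin D} {A : Finset (Fin D)} : (symmDiff A {c}).erase c = A.erase c := by
  ext x
  simp only [mem_erase, mem_symmDiff, mem_singleton]
  tauto

lemma ee_tog_self (c : Fin D) (p : PP D) : ee c (tog c p) = ee c p := by
  unfold ee tog
  simp only [erase_sd_self]

/-- toggling another element, absent in both sets, does not change the sign -/
lemma ee_tog {c d : Fin D} (h : c ≠ d) (p : PP D) (h1 : d ∉ p.1) (h2 : d ∉ p.2) :
    ee c (tog d p) = ee c p := by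
  unfold ee tog
  simp only
  rw [erase_sd h h1, erase_sd h h2, eps_insert (fun h3 => h1 (mem_of_mem_erase h3)),
    eps_insert (fun h3 => h2 (mem_of_mem_erase h3))]
  calc _ = (ss c d * ss c d) * (eps c (p.1.erase c) * eps c (p.2.erase c)) := by ring
    _ = _ := by rw [ss_sq h, one_mul]

def both (c : Fin D) (p : PP D) : Prop := c ∈ p.1 ∧ c ∈ p.2
def none' (c : Fin D) (p : PP D) : Prop := c ∉ p.1 ∧ c ∉ p.2

instance (c : Fin D) : DecidablePred (both c) := fun p => by unfold both; infer_instance
instance (c : Fin D) : DecidablePred (none' c) := fun p => by unfold none'; infer_instance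

def up (g : PP D → ℤ) (c : Fin D) (p : PP D) : ℤ := if both c p then ee c p * g (tog c p) else 0
def dn (g : PP D → ℤ) (c : Fin D) (p : PP D) : ℤ := if none' c p then ee c p * g (tog c p) else 0

lemma both_tog (c : Fin D) (p : PP D) : both c (tog c p) ↔ none' c p := by
  unfold both none' tog
  simp only [mem_sd_self]

lemma none_tog (c : Fin D) (p : PP D) : none' c (tog c p) ↔ both c p := by
  unfold both none' tog
  simp only [mem_sd_self, not_not]

lemma both_tog_ne {c d : Fin D} (h : c ≠ d) (p : PP D) : both c (tog d p) ↔ both c p := by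
  unfold both tog
  simp only [mem_sd_ne h]

lemma sum_up_sq (g : PP D → ℤ) (c : Fin D) :
    ∑ p, up g c p * up g c p = ∑ p, if none' c p then g p * g p else 0 := by
  rw [← Equiv.sum_comp (togE c)]
  refine sum_congr rfl fun p _ => ?_
  show up g c (tog c p) * up g c (tog c p) = _
  unfold up
  simp only [both_tog, tog_tog]
  split_ifs with h
  · calc _ = (ee c (tog c p) * ee c (tog c p)) * (g p * g p) := by ring
      _ = _ := by rw [ee_sq, one_mul]
  · ring

lemma sum_dn_sq (g : PP D → ℤ) (c : Fin D) :
    ∑ p, dn g c p * dn g c p = ∑ p, if both c p then g p * g p else 0 := by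
  rw [← Equiv.sum_comp (togE c)]
  refine sum_congr rfl fun p _ => ?_
  show dn g c (tog c p) * dn g c (tog c p) = _
  unfold dn
  simp only [none_tog, tog_tog]
  split_ifs with h
  · calc _ = (ee c (tog c p) * ee c (tog c p)) * (g p * g p) := by ring
      _ = _ := by rw [ee_sq, one_mul]
  · ring

lemma sum_cross (g : PP D → ℤ) {c d : Fin D} (h : c ≠ d) :
    ∑ p, up g c p * up g d p = ∑ p, dn g c p * dn g d p := by
  rw [← Equiv.sum_comp ((togE c).trans (togE d))]
  refine sum_congr rfl fun p _ => ?_
  show up g c (tog d (tog c p)) * up g d (tog d (tog c p)) = _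
  unfold up dn
  have e1 : both c (tog d (tog c p)) ↔ none' c p := by
    rw [both_tog_ne h, both_tog]
  have e2 : both d (tog d (tog c p)) ↔ none' d p := by
    rw [tog_comm d c, both_tog_ne h.symm, both_tog]
  simp only [e1, e2]
  by_cases h1 : none' c p
  · by_cases h2 : none' d p
    · simp only [if_pos h1, if_pos h2]
      have f1 : ee c (tog d (tog c p)) = ee c p := by
        rw [tog_comm d c, ee_tog_self, ee_tog h p h2.1 h2.2]
      have f2 : ee d (tog d (tog c p)) = ee d p := by
        rw [ee_tog_self, ee_tog h.symm p h1.1 h1.2]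
      have f3 : tog c (tog d (tog c p)) = tog d p := by
        rw [tog_comm d c, tog_tog]
      rw [f1, f2, f3, tog_tog]
      ring
    · simp only [if_neg h2]
      ring
  · simp only [if_neg h1]
    ring

lemma card_both_none (p : PP D) :
    (∑ c, ((if none' c p then (1 : ℤ) else 0) - if both c p then 1 else 0)) =
      D - p.1.card - p.2.card := by
  have e : ∀ c : Fin D, ((if none' c p then (1 : ℤ) else 0) - if both c p then 1 else 0) =
      1 - (if c ∈ p.1 then 1 else 0) - (if c ∈ p.2 then 1 else 0) := by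
    intro c
    unfold none' both
    by_cases h1 : c ∈ p.1 <;> by_cases h2 : c ∈ p.2 <;> simp [h1, h2]
  simp only [e, sum_sub_distrib, sum_const, card_univ, Fintype.card_fin, sum_boole]
  simp

/-- if the down operator kills `g`, supported on level `(a, b)` with `a + b > D`, then `g = 0` -/
theorem lef (g : PP D → ℤ) (a b : ℕ) (hab : D < a + b)
    (hg : ∀ p, g p ≠ 0 → p.1.card = a ∧ p.2.card = b)
    (hT : ∀ p, ∑ c, dn g c p = 0) : ∀ p, g p = 0 := by
  have key : ∑ p, (∑ c, up g c p) * (∑ c, up g c p) =
      ∑ p, (∑ c, dn g c p) * (∑ c, dn g c p) +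
        ∑ p, ((D : ℤ) - p.1.card - p.2.card) * (g p * g p) := by
    have e1 : ∀ f : (PP D → ℤ) → Fin D → PP D → ℤ,
        ∑ p, (∑ c, f g c p) * (∑ c, f g c p) = ∑ c, ∑ d, ∑ p, f g c p * f g d p := by
      intro f
      simp only [sum_mul_sum]
      rw [sum_comm]
      refine sum_congr rfl fun c _ => ?_
      rw [sum_comm]
    rw [e1 up, e1 dn]
    have e2 : ∀ p : PP D, ((D : ℤ) - p.1.card - p.2.card) * (g p * g p) =
        ∑ c, ((if none' c p then g p * g p else 0) - if both c p then g p * g p else 0) := by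
      intro p
      rw [← card_both_none, sum_mul]
      refine sum_congr rfl fun c _ => ?_
      split_ifs <;> ring
    simp only [e2]
    rw [sum_comm (s := (univ : Finset (PP D)))]
    rw [← sum_add_distrib]
    refine sum_congr rfl fun c _ => ?_
    have e3 : ∑ p, ((if none' c p then g p * g p else 0) - if both c p then g p * g p else 0) =
        ∑ p, up g c p * up g c p - ∑ p, dn g c p * dn g c p := by
      rw [sum_sub_distrib, sum_up_sq, sum_dn_sq]
    rw [e3]
    rw [← add_sum_erase _ _ (mem_univ c), ← add_sum_erase _ (fun d => ∑ p, dn g c p * dn g d p)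
      (mem_univ c)]
    have e4 : ∑ d ∈ univ.erase c, ∑ p, up g c p * up g d p =
        ∑ d ∈ univ.erase c, ∑ p, dn g c p * dn g d p :=
      sum_congr rfl fun d hd => sum_cross g (ne_of_mem_erase hd).symm
    rw [e4]
    ring
  have h0 : ∑ p, (∑ c, dn g c p) * (∑ c, dn g c p) = 0 := by
    refine sum_eq_zero fun p _ => ?_
    rw [hT p]
    ring
  have h1 : 0 ≤ ∑ p, (∑ c, up g c p) * (∑ c, up g c p) :=
    sum_nonneg fun p _ => mul_self_nonneg _
  have h2 : ∑ p, ((D : ℤ) - p.1.card - p.2.card) * (g p * g p) ≤ - ∑ p, g p * g p := by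
    rw [← sum_neg_distrib]
    refine sum_le_sum fun p _ => ?_
    by_cases hp : g p = 0
    · rw [hp]
      simp
    · obtain ⟨h3, h4⟩ := hg p hp
      rw [h3, h4]
      have h5 : ((D : ℤ) - a - b) ≤ -1 := by
        have : (D : ℤ) < a + b := by exact_mod_cast hab
        linarith
      nlinarith [mul_self_nonneg (g p)]
  rw [key, h0, zero_add] at h1
  have h3 : ∑ p, g p * g p = 0 :=
    le_antisymm (by linarith) (sum_nonneg fun p _ => mul_self_nonneg _)
  intro p
  have h4 := (sum_eq_zero_iff_of_nonneg (fun p _ => mul_self_nonneg (g p))).1 h3 p (mem_univ p)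
  exact mul_self_eq_zero.1 h4

end Pool.Agent.R804.LD
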