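import Pool.Agent.R804.LD.Mono
import Pool.Agent.TH378.LCGraph
import Pool.Agent.W862.LE.CP

/-! Complete graphs and graphs with a 1-factorization. -/

set_option autoImplicit false

namespace Pool.Agent.R804.LD

open Finset Pool.Agent.W426.LE
open scoped Classical

section
open Pool.Agent.W862.LE Pool.Agent.W862.LE.KP Pool.Agent.W862.LE.CP

/-- the complete graph on `p + 1` points -/
theorem gg_complete (p : ℕ) (hpp : p.Prime) (hp2 : p ≠ 2) (W : Type) [Finite W]
    (hW : Nat.card W = p + 1) : GG p (⊤ : SimpleGraph W) := by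
  have : Fact p.Prime := ⟨hpp⟩
  have := Fintype.ofFinite W
  have hodd : Odd p := hpp.odd_of_ne_two hp2
  obtain ⟨m, hm⟩ := hodd
  obtain ⟨g, hg'⟩ := Pool.Agent.W337.LE.half p m (hpp.odd_of_ne_two hp2) (univ.erase (0 : ZMod p))
    (fun x hx => mem_erase.2 ⟨neg_ne_zero.2 (mem_erase.1 hx).1, mem_univ _⟩)
    (fun h => (mem_erase.1 h).1 rfl)
    (by rw [card_erase_of_mem (mem_univ _), Finset.card_univ, ZMod.card]; omega)
  have hset : ((univ.erase (0 : ZMod p) : Finset (ZMod p)) : Set (ZMod p)) = {z | z ≠ 0} := by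
    ext z
    simp
  rw [hset] at hg'
  have hg : ∀ i, g i ≠ 0 := by
    intro i
    have h4 := hg'.mapsTo (Set.mem_univ (i, true))
    simpa using h4
  have ρ : Option (Fin m × Bool) ≃ ZMod p := Fintype.equivOfCardEq (by
    simp only [Fintype.card_option, Fintype.card_prod, Fintype.card_bool, Fintype.card_fin,
      ZMod.card]
    omega)
  let ψ : KE p (Fin m) ≃ (⊤ : SimpleGraph (Option (ZMod p))).edgeSet :=
    Equiv.ofBijective (psi0 g hg) (psi_bij g hg hg')
  have h1 : ∀ v i, v ∈ (ψ (kinc ρ g v i) : Sym2 (Option (ZMod p))) := fun v i => psi_h1 ρ g hg v i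
  have h2 : ∀ v e, v ∈ (ψ e : Sym2 (Option (ZMod p))) → ∃ i, kinc ρ g v i = e := fun v e hv =>
    psi_h2 ρ g hg v e hv
  have h3 := psi_h3 ρ g hg
  have hN : NN ρ (kinc ρ g) ≠ 0 := by
    refine kNN ρ g hp2 (fun e => ?_) hg
    exact natcard_of _ _ _ (Pool.Agent.W15.LEGR.card_two (kinc ρ g) _ ψ h1 h2 h3 e)
  have h5 := gg_of_NN ρ (kinc ρ g) _ ψ h1 h2 h3 hN
  rw [Fintype.card_option, Fintype.card_prod, Fintype.card_bool, Fintype.card_fin] at h5
  have h6 : m * 2 + 1 = p := by omega
  rw [h6] at h5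
  have h7 : Fintype.card W = Fintype.card (Option (ZMod p)) := by
    rw [← Nat.card_eq_fintype_card, hW, Fintype.card_option, ZMod.card]
  let e : W ≃ Option (ZMod p) := Fintype.equivOfCardEq h7
  refine gg_sub _ _ e e.injective ?_ h5
  intro u v h
  exact fun h' => h (e.injective h')
end

section
open Pool.Agent.W493.LE.GK

/-- the complete graph on `2 p` points -/
theorem gg_complete2 (p : ℕ) (hpp : p.Prime) (hp2 : p ≠ 2) (W : Type) [Finite W]
    (hW : Nat.card W = 2 * p) : GG (2 * p - 1) (⊤ : SimpleGraph W) := by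
  have hF := Fintype.ofFinite W
  have hV : Fintype.card W = 2 * p := by rw [← Nat.card_eq_fintype_card, hW]
  have hH : S_HALF := Pool.Agent.W337.LE.half
  have hE : S_EDGE := Pool.Agent.W337.LE.main
  have hK : S_KK := sKK
  haveI hp : Fact p.Prime := ⟨hpp⟩
  haveI hn0 : NeZero p := ⟨hpp.ne_zero⟩
  have hodd : Odd p := hpp.odd_of_ne_two hp2
  have hodd' := hodd
  obtain ⟨m, hm⟩ := hodd'
  set S : Finset (ZMod p) := univ.erase 0 with hS
  have hSc : S.card = 2 * m := by
    rw [hS, Finset.card_erase_of_mem (Finset.mem_univ _), Finset.card_univ, ZMod.card]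
    omega
  have h0S : (0 : ZMod p) ∉ S := by simp [hS]
  obtain ⟨σ, hσ⟩ := hH p m hodd S (by intro x hx; simpa [hS] using hx) h0S hSc
  have hσ' : Half {z : ZMod p | z ≠ 0} σ := by
    have : ((S : Finset (ZMod p)) : Set (ZMod p)) = {z : ZMod p | z ≠ 0} := by
      ext z
      simp [hS]
    rwa [this] at hσ
  obtain ⟨ψ, h1, h2, h3⟩ := hE p m hodd S S (univ : Finset (ZMod p)) (fun _ => σ) h0S h0S hσ hσ
  let τ : ZMod p ≃ (univ : Finset (ZMod p)) :=
    (Equiv.subtypeUnivEquiv fun x => Finset.mem_univ x).symm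
  have hτ : ∀ t : ZMod p, ((τ t : (univ : Finset (ZMod p))) : ZMod p) = t := fun t => rfl
  have hinc : ∀ (u : ZMod p × Bool) (i : DD (Fin m) (ZMod p)),
      eE p τ (inc (fun _ : Bool => σ) (fun t : ZMod p => t) u i) =
        inc (fun _ : Bool => σ) (fun t : (univ : Finset (ZMod p)) => (t : ZMod p)) u (dE τ i) :=
    fun u i => inc_change τ (fun _ : Bool => σ)
      (fun t : (univ : Finset (ZMod p)) => (t : ZMod p)) u i
  have ρ : DD (Fin m) (ZMod p) ≃ CC p (Fin (p - 1)) := Fintype.equivOfCardEq (by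
    simp only [Fintype.card_sum, Fintype.card_prod, Fintype.card_bool, Fintype.card_fin,
      ZMod.card]
    omega)
  have hNN := hK p hp2 (Fin m) (Fin (p - 1)) σ hσ' ρ
  have hL := gg_of_NN ρ (inc (fun _ => σ) (fun t : ZMod p => t))
    (BC p S S (univ : Finset (ZMod p))) ((eE p τ).trans ψ) ?_ ?_ ?_ hNN
  · have hBC : BC p S S (univ : Finset (ZMod p)) = ⊤ := by
      ext u v
      unfold BC
      rw [SimpleGraph.fromRel_adj, SimpleGraph.top_adj]
      constructor
      · exact fun h => h.1
      · intro h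
        refine ⟨h, ?_⟩
        obtain ⟨x, b⟩ := u
        obtain ⟨y, b'⟩ := v
        have key : b = b' → y - x ∈ S := by
          intro hb
          subst hb
          rw [hS, Finset.mem_erase]
          refine ⟨?_, Finset.mem_univ _⟩
          rw [sub_ne_zero]
          rintro rfl
          exact h rfl
        cases b <;> cases b'
        · exact Or.inl (Or.inl ⟨rfl, rfl, key rfl⟩)
        · exact Or.inl (Or.inr (Or.inr ⟨rfl, rfl, Finset.mem_univ _⟩))
        · exact Or.inr (Or.inr (Or.inr ⟨rfl, rfl, Finset.mem_univ _⟩))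
        · exact Or.inl (Or.inr (Or.inl ⟨rfl, rfl, key rfl⟩))
    rw [hBC] at hL
    have e : ZMod p × Bool ≃ W := Fintype.equivOfCardEq (by
      rw [Fintype.card_prod, ZMod.card, Fintype.card_bool, hV, mul_comm])
    have hcD : Fintype.card (DD (Fin m) (ZMod p)) = 2 * p - 1 := by
      simp only [Fintype.card_sum, Fintype.card_prod, Fintype.card_bool, Fintype.card_fin,
        ZMod.card]
      omega
    rw [hcD] at hL
    refine gg_sub _ _ e.symm e.symm.injective (by
      intro u v h
      rw [SimpleGraph.top_adj] at h ⊢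
      exact fun h' => h (e.symm.injective h')) hL
  · intro v i
    rw [Equiv.trans_apply, hinc]
    exact h1 v _
  · intro v e he
    rw [Equiv.trans_apply] at he
    obtain ⟨i, hi⟩ := h2 v _ he
    refine ⟨(dE τ).symm i, ?_⟩
    apply (eE p τ).injective
    rw [hinc, Equiv.apply_symm_apply, hi]
  · intro v i j hij
    have h4 := congrArg (eE p τ) hij
    rw [hinc, hinc] at h4
    exact (dE τ).injective (h3 v h4)
end

section
open Pool.Agent.TH378.LC

/-- graphs given by a 1-factorization -/
theorem fam_GG {d : ℕ} {V : Type} (F : Fin d → V → V) (hinv : ∀ i v, F i (F i v) = v)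
    (hne : ∀ i v, F i v ≠ v) (hS : ∀ v i j, F i v = F j v → i = j) [Fintype V]
    (hAT : AT F ≠ 0) : GG d (fgraph F) := by
  obtain ⟨n, ⟨e0⟩⟩ := Finite.exists_equiv_fin V
  let idx : V → ℕ := fun w => (e0 w : ℕ)
  have hidx : Function.Injective idx := fun a b h => e0.injective (Fin.ext h)
  let inc := binc idx F hidx hinv hne
  have hN : NN (Equiv.refl (Fin d)) inc ≠ 0 := by
    rw [NN_binc]
    exact hAT
  have hmem : ∀ e : BE idx F, s(e.1.2, F e.1.1 e.1.2) ∈ (fgraph F).edgeSet := by
    intro e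
    rw [SimpleGraph.mem_edgeSet, fgraph_adj F hinv hne]
    exact ⟨e.1.1, rfl⟩
  let ψ0 : BE idx F → (fgraph F).edgeSet := fun e => ⟨_, hmem e⟩
  have hinj : Function.Injective ψ0 := by
    rintro ⟨⟨i, w⟩, hw⟩ ⟨⟨j, w'⟩, hw'⟩ heq
    have h1 := congrArg Subtype.val heq
    simp only [ψ0] at h1
    rw [Sym2.eq_iff] at h1
    rcases h1 with ⟨h1, h2⟩ | ⟨h1, h2⟩
    · subst h1
      have a5 := hS w i j h2
      subst a5
      rfl
    · exfalso
      have a3 : idx w < idx (F i w) := hw
      have a4 : idx w' < idx (F j w') := hw'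
      rw [h2] at a3
      rw [← h1] at a4
      omega
  have hsurj : Function.Surjective ψ0 := by
    rintro ⟨e, he⟩
    induction e using Sym2.ind with
    | _ a b =>
      rw [SimpleGraph.mem_edgeSet, fgraph_adj F hinv hne] at he
      obtain ⟨i, rfl⟩ := he
      by_cases h : idx a < idx (F i a)
      · exact ⟨⟨(i, a), h⟩, rfl⟩
      · refine ⟨⟨(i, F i a), idx_lt idx F hidx hinv hne h⟩, ?_⟩
        refine Subtype.ext ?_
        show s(F i a, F i (F i a)) = s(a, F i a)
        rw [hinv, Sym2.eq_swap]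
  let ψ : BE idx F ≃ (fgraph F).edgeSet := Equiv.ofBijective ψ0 ⟨hinj, hsurj⟩
  have h5 : GG (Fintype.card (Fin d)) (fgraph F) := by
    refine gg_of_NN (Equiv.refl _) inc (fgraph F) ψ ?_ ?_ ?_ hN
    · intro w i
      show w ∈ s((inc w i).1.2, F (inc w i).1.1 (inc w i).1.2)
      by_cases h : idx w < idx (F i w)
      · have e1 : inc w i = ⟨(i, w), h⟩ := binc_pos idx F hidx hinv hne h
        rw [e1]
        exact Sym2.mem_mk_left _ _
      · have e1 : inc w i = ⟨(i, F i w), idx_lt idx F hidx hinv hne h⟩ :=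
          binc_neg idx F hidx hinv hne h
        rw [e1]
        show w ∈ s(F i w, F i (F i w))
        rw [hinv]
        exact Sym2.mem_mk_right _ _
    · rintro w ⟨⟨i, w'⟩, hw'⟩ hv
      have hv' : w ∈ s(w', F i w') := hv
      have hw'' : idx w' < idx (F i w') := hw'
      refine ⟨i, ?_⟩
      show inc w i = (⟨(i, w'), hw'⟩ : BE idx F)
      rcases Sym2.mem_iff.1 hv' with hv' | hv'
      · subst hv'
        exact binc_pos idx F hidx hinv hne hw''
      · subst hv'
        have hn : ¬ idx (F i w') < idx (F i (F i w')) := by rw [hinv]; omega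
        have e1 : inc (F i w') i = ⟨(i, F i (F i w')), idx_lt idx F hidx hinv hne hn⟩ :=
          binc_neg idx F hidx hinv hne hn
        rw [e1]
        refine Subtype.ext ?_
        show (i, F i (F i w')) = (i, w')
        rw [hinv]
    · rintro w i j hij
      have h6 : inc w i = inc w j := hij
      have h7 : ∀ k, (inc w k).1.1 = k := by
        intro k
        by_cases h : idx w < idx (F k w)
        · have e1 : inc w k = ⟨(k, w), h⟩ := binc_pos idx F hidx hinv hne h
          rw [e1]
        · have e1 : inc w k = ⟨(k, F k w), idx_lt idx F hidx hinv hne h⟩ :=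
            binc_neg idx F hidx hinv hne h
          rw [e1]
      rw [← h7 i, ← h7 j, h6]
  rwa [Fintype.card_fin] at h5
end

end Pool.Agent.R804.LD
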