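import Pool.Agent.R804.LD.Mir

/-! Even cycles are mirror graphs. -/

set_option autoImplicit false

namespace Pool.Agent.R804.LD

open Finset
open scoped Classical

lemma degen_path (m : ℕ) : Degen 1 (SimpleGraph.pathGraph m) := by
  intro X hX
  obtain ⟨v, hv, hmin⟩ := Set.exists_min_image X (fun v => v) (Set.toFinite X) hX
  refine ⟨v, hv, (Set.ncard_le_one (Set.toFinite _)).2 ?_⟩
  rintro a ⟨ha, ha'⟩ b ⟨hb, hb'⟩
  rw [SimpleGraph.pathGraph_adj] at ha' hb'
  have h1 : v.1 ≤ a.1 := hmin a ha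
  have h2 : v.1 ≤ b.1 := hmin b hb
  ext
  omega

lemma dgr_path (m : ℕ) (v : Fin m) : dgr (SimpleGraph.pathGraph m) v ≤ 2 := by
  unfold dgr
  by_contra h
  push Not at h
  obtain ⟨a, b, c, ha, hb, hc, hab, hac, hbc⟩ := (Set.two_lt_ncard_iff (Set.toFinite _)).1 h
  rw [SimpleGraph.mem_neighborSet, SimpleGraph.pathGraph_adj] at ha hb hc
  have h1 : a.1 ≠ b.1 := fun h => hab (Fin.ext h)
  have h2 : a.1 ≠ c.1 := fun h => hac (Fin.ext h)
  have h3 : b.1 ≠ c.1 := fun h => hbc (Fin.ext h)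
  omega

theorem mirror_path (m : ℕ) : Mirror 2 (Fin m) (SimpleGraph.pathGraph m) :=
  mirror_forest _ (degen_path m) (dgr_path m)

lemma sub_val_one {n : ℕ} (u v : Fin n) (h : (u - v).val = 1) (hn : 2 ≤ n) :
    u.1 = v.1 + 1 ∨ (u.1 = 0 ∧ v.1 + 1 = n) := by
  rw [Fin.val_sub] at h
  have hu := u.2
  have hv := v.2
  by_cases h1 : n - v.1 + u.1 < n
  · rw [Nat.mod_eq_of_lt h1] at h
    omega
  · rw [Nat.mod_eq_sub_mod (by omega), Nat.mod_eq_of_lt (by omega)] at h
    omega

theorem mirror_cycle (m : ℕ) (hm : 2 ≤ m) :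
    Mirror 2 (Fin (2 * m)) (SimpleGraph.cycleGraph (2 * m)) := by
  have hS : ∀ s ∈ {s : Fin m | s.1 = 0 ∨ s.1 + 1 = m},
      ((SimpleGraph.pathGraph m).neighborSet s).ncard < 2 := by
    intro s hs
    refine Nat.lt_succ_of_le ((Set.ncard_le_one (Set.toFinite _)).2 ?_)
    intro a ha b hb
    rw [SimpleGraph.mem_neighborSet, SimpleGraph.pathGraph_adj] at ha hb
    have h1 : s.1 = 0 ∨ s.1 + 1 = m := hs
    have h2 := a.2
    have h3 := b.2
    ext
    omega
  have h1 := Mirror.double (Fin m) (SimpleGraph.pathGraph m) _ hS (mirror_path m)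
  let φ : Fin (2 * m) → Fin m × Bool := fun i =>
    if h : i.1 < m then (⟨i.1, h⟩, false) else (⟨2 * m - 1 - i.1, by have := i.2; omega⟩, true)
  have hstep : ∀ u v : Fin (2 * m), (u.1 = v.1 + 1 ∨ (u.1 = 0 ∧ v.1 + 1 = 2 * m)) →
      (dblG {s : Fin m | s.1 = 0 ∨ s.1 + 1 = m} (SimpleGraph.pathGraph m)).Adj (φ u) (φ v) := by
    intro u v huv
    have hu := u.2
    have hv := v.2
    simp only [φ]
    by_cases h1 : u.1 < m
    · by_cases h2 : v.1 < m
      · rw [dif_pos h1, dif_pos h2]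
        refine Or.inl ⟨rfl, ?_⟩
        rw [SimpleGraph.pathGraph_adj]
        simp only
        omega
      · rw [dif_pos h1, dif_neg h2]
        refine Or.inr ⟨by simp, ?_, ?_⟩
        · simp only [Fin.mk.injEq]
          omega
        · show u.1 = 0 ∨ u.1 + 1 = m
          omega
    · by_cases h2 : v.1 < m
      · rw [dif_neg h1, dif_pos h2]
        refine Or.inr ⟨by simp, ?_, ?_⟩
        · simp only [Fin.mk.injEq]
          omega
        · show 2 * m - 1 - u.1 = 0 ∨ 2 * m - 1 - u.1 + 1 = m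
          omega
      · rw [dif_neg h1, dif_neg h2]
        refine Or.inl ⟨rfl, ?_⟩
        rw [SimpleGraph.pathGraph_adj]
        simp only
        omega
  refine Mirror.embed _ _ _ _ φ ?_ ?_ h1
  · intro a b hab
    simp only [φ] at hab
    have ha := a.2
    have hb := b.2
    by_cases h1 : a.1 < m <;> by_cases h2 : b.1 < m
    · rw [dif_pos h1, dif_pos h2] at hab
      simp only [Prod.mk.injEq, Fin.mk.injEq] at hab
      exact Fin.ext hab.1
    · rw [dif_pos h1, dif_neg h2] at hab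
      simp at hab
    · rw [dif_neg h1, dif_pos h2] at hab
      simp at hab
    · rw [dif_neg h1, dif_neg h2] at hab
      simp only [Prod.mk.injEq, Fin.mk.injEq] at hab
      ext
      omega
  · intro u v huv
    rw [SimpleGraph.cycleGraph_adj'] at huv
    rcases huv with h | h
    · exact hstep u v (sub_val_one u v h (by omega))
    · exact (hstep v u (sub_val_one v u h (by omega))).symm

/-- a vertex of degree `D` needs `D` colours -/
theorem not_col {V : Type} [Finite V] (G : SimpleGraph V) (D : ℕ) (hD : 1 ≤ D) (v : V)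
    (hv : D ≤ dgr G v) : ¬ G.lineGraph.Colorable (D - 1) := by
  have := Fintype.ofFinite V
  refine Pool.Agent.W426.LE.EL.deg G D hD v ?_
  unfold dgr at hv
  rw [← SimpleGraph.card_neighborSet_eq_degree]
  rw [Set.ncard_eq_toFinset_card', Set.toFinset_card] at hv
  exact hv

end Pool.Agent.R804.LD
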