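import Pool.Agent.R804.LD.Cyc

/-! Final forms. -/

set_option autoImplicit false

namespace Pool.Agent.R804.LD

open Finset
open scoped Classical

lemma degen_of_deg {V : Type} [Finite V] (G : SimpleGraph V) (k : ℕ) (h : ∀ v, dgr G v ≤ k) :
    Degen k G := by
  rintro X ⟨v, hv⟩
  refine ⟨v, hv, le_trans (Set.ncard_le_ncard ?_ (Set.toFinite _)) (h v)⟩
  intro w hw
  exact hw.2

lemma le_dgr_cube (r : ℕ) (x : Fin r → Bool) : r ≤ dgr (cube r) x := by
  unfold dgr
  let f : Fin r → (Fin r → Bool) := fun i => Function.update x i (!x i)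
  have hf : Function.Injective f := by
    intro i j hij
    by_contra h
    have h1 := congrFun hij i
    simp only [f, Function.update_self, Function.update_of_ne h] at h1
    cases hx : x i <;> simp [hx] at h1
  have h1 : f '' Set.univ ⊆ (cube r).neighborSet x := by
    rintro _ ⟨i, _, rfl⟩
    refine ⟨i, ?_, ?_⟩
    · simp [f]
    · intro j hj
      by_contra h
      simp only [f, Function.update_of_ne h] at hj
      exact hj rfl
  have h2 := Set.ncard_le_ncard h1 (Set.toFinite _)
  rw [Set.ncard_image_of_injective _ hf, Set.ncard_univ, Nat.card_eq_fintype_card,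
    Fintype.card_fin] at h2
  exact h2

open Pool.Agent.W426.LE Pool.Agent.W426.LE.EL in
lemma lec_of {V : Type} [Finite V] {D : ℕ} (G : SimpleGraph V) (hG : GG D G)
    (hd : ∃ v, D ≤ dgr G v) (k : ℕ) : LECCk G k := by
  rcases Nat.eq_zero_or_pos D with h0 | h0
  · subst h0
    have h1 := gg_EL G hG
    constructor
    · intro _ L _
      exact h1 L (fun e => Nat.zero_le _)
    · intro _
      obtain ⟨f, hf, _⟩ := h1 (fun _ => ∅) (fun e => Nat.zero_le _)
      exact ⟨SimpleGraph.Coloring.mk (fun e => absurd (hf e) (notMem_empty _))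
        (fun {e} _ _ => absurd (hf e) (notMem_empty _))⟩
  · obtain ⟨v, hv⟩ := hd
    exact lec G D (gg_EL G hG) (not_col G D h0 v hv) k

end Pool.Agent.R804.LD
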