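import Pool.Agent.R804.LD.Chs

/-! Good simple graphs. -/

set_option autoImplicit false

namespace Pool.Agent.R804.LD

open Finset
open scoped Classical

/-- the list contains every edge of `G` exactly once -/
def Rep {V : Type} (G : SimpleGraph V) (l : List (V × V)) : Prop :=
  (∀ e ∈ l, G.Adj e.1 e.2) ∧ (∀ u v, G.Adj u v → (u, v) ∈ l ∨ (v, u) ∈ l) ∧
    (l.map (fun e => s(e.1, e.2))).Nodup

/-- the degree -/
noncomputable def dgr {V : Type} (G : SimpleGraph V) (v : V) : ℕ := (G.neighborSet v).ncard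

def GG {V : Type} (D : ℕ) (G : SimpleGraph V) : Prop := ∃ l, Rep G l ∧ Good D l

lemma rep_ne {V : Type} {G : SimpleGraph V} {l : List (V × V)} (h : Rep G l) :
    ∀ e ∈ l, e.1 ≠ e.2 := fun e he => (h.1 e he).ne

lemma rep_inj {V : Type} {G : SimpleGraph V} {l : List (V × V)} (h : Rep G l) :
    ∀ e ∈ l, ∀ f ∈ l, s(e.1, e.2) = s(f.1, f.2) → e = f :=
  fun e he f hf hef => List.inj_on_of_nodup_map h.2.2 he hf hef

lemma dg_rep {V : Type} {G : SimpleGraph V} {l : List (V × V)} (h : Rep G l) (v : V) :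
    dg l v = dgr G v := by
  let g : V × V → V := fun e => if e.1 = v then e.2 else e.1
  let l' := (l.filter (fun e => decide (inE v e))).map g
  have hg : ∀ e, inE v e → s(e.1, e.2) = s(v, g e) := by
    intro e he
    simp only [g]
    by_cases h1 : e.1 = v
    · rw [if_pos h1, h1]
    · rw [if_neg h1]
      rcases he with h2 | h2
      · exact absurd h2.symm h1
      · rw [← h2, Sym2.eq_swap]
  have hnd : l'.Nodup := by
    refine List.Nodup.map_on ?_ ((List.Nodup.of_map _ h.2.2).filter _)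
    intro e he f hf hef
    have he' := List.mem_filter.1 he
    have hf' := List.mem_filter.1 hf
    refine rep_inj h e he'.1 f hf'.1 ?_
    rw [hg e (by simpa using he'.2), hg f (by simpa using hf'.2), hef]
  have hset : (l'.toFinset : Set V) = G.neighborSet v := by
    ext w
    rw [Finset.mem_coe, List.mem_toFinset, SimpleGraph.mem_neighborSet]
    constructor
    · intro hw
      obtain ⟨e, he, rfl⟩ := List.mem_map.1 hw
      have he' := List.mem_filter.1 he
      have h1 := h.1 e he'.1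
      have h2 := hg e (by simpa using he'.2)
      rw [← SimpleGraph.mem_edgeSet, h2, SimpleGraph.mem_edgeSet] at h1
      exact h1
    · intro hw
      rcases h.2.1 v w hw with h1 | h1
      · refine List.mem_map.2 ⟨(v, w), List.mem_filter.2 ⟨h1, by simp [inE]⟩, by simp [g]⟩
      · refine List.mem_map.2 ⟨(w, v), List.mem_filter.2 ⟨h1, by simp [inE]⟩, ?_⟩
        simp only [g]
        rw [if_neg hw.ne.symm]
  unfold dgr
  rw [← hset, Set.ncard_coe_finset, List.toFinset_card_of_nodup hnd]
  simp only [l', List.length_map]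
  unfold dg
  rw [List.countP_eq_length_filter]

/-! ### constructions -/

theorem gg_bot {V : Type} (D : ℕ) : GG D (⊥ : SimpleGraph V) :=
  ⟨[], ⟨by simp, by simp, by simp⟩, good_nil⟩

lemma good_unmap {V W : Type} {D : ℕ} (φ : V → W) (hφ : Function.Injective φ) (l : List (V × V))
    (h : Good D (mp φ l)) : Good D l := by
  obtain ⟨M, h1, h2⟩ := h
  refine ⟨fun v => M (φ v), fun v => ?_, ?_⟩
  · have h3 := h1 (φ v)
    rw [dg_map φ hφ] at h3
    exact h3
  · rw [A_map φ hφ] at h2
    exact h2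

theorem gg_sub {V W : Type} {D : ℕ} (G : SimpleGraph V) (H : SimpleGraph W) (φ : V → W)
    (hφ : Function.Injective φ) (h : ∀ u v, G.Adj u v → H.Adj (φ u) (φ v)) (hH : GG D H) :
    GG D G := by
  obtain ⟨l, hl, hg⟩ := hH
  let F : W × W → Option (V × V) := fun e =>
    if h : ∃ q : V × V, (φ q.1, φ q.2) = e ∧ G.Adj q.1 q.2 then some h.choose else none
  have hF : ∀ e q, F e = some q → (φ q.1, φ q.2) = e ∧ G.Adj q.1 q.2 := by
    intro e q hq
    simp only [F] at hq
    split_ifs at hq with h1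
    rw [← Option.some.inj hq]
    exact h1.choose_spec
  have hF2 : ∀ q : V × V, G.Adj q.1 q.2 → F (φ q.1, φ q.2) = some q := by
    intro q hq
    have h1 : ∃ q' : V × V, (φ q'.1, φ q'.2) = (φ q.1, φ q.2) ∧ G.Adj q'.1 q'.2 := ⟨q, rfl, hq⟩
    simp only [F]
    rw [dif_pos h1]
    have h2 := h1.choose_spec.1
    rw [Prod.mk.injEq] at h2
    exact congrArg some (Prod.ext (hφ h2.1) (hφ h2.2))
  let l' := l.filterMap F
  have hmap : mp φ l' = l.filter (fun e => (F e).isSome) := by
    simp only [l', mp]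
    clear hl hg
    induction l with
    | nil => rfl
    | cons e l ih =>
      cases hfe : F e with
      | none =>
        rw [List.filterMap_cons_none hfe, List.filter_cons_of_neg (by simp [hfe])]
        exact ih
      | some q =>
        rw [List.filterMap_cons_some hfe, List.filter_cons_of_pos (by simp [hfe]), List.map_cons,
          ih, (hF e q hfe).1]
  have hsub : (mp φ l').Sublist l := by
    rw [hmap]
    exact List.filter_sublist
  refine ⟨l', ⟨?_, ?_, ?_⟩, good_unmap φ hφ l' (good_sub hsub.subperm (rep_ne hl) hg)⟩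
  · intro q hq
    obtain ⟨e, _, he⟩ := List.mem_filterMap.1 hq
    exact (hF e q he).2
  · intro u v huv
    rcases hl.2.1 _ _ (h u v huv) with h1 | h1
    · exact Or.inl (List.mem_filterMap.2 ⟨_, h1, hF2 (u, v) huv⟩)
    · exact Or.inr (List.mem_filterMap.2 ⟨_, h1, hF2 (v, u) huv.symm⟩)
  · have h1 : ((mp φ l').map (fun e => s(e.1, e.2))).Nodup :=
      (hsub.map _).nodup hl.2.2
    have h2 : (mp φ l').map (fun e => s(e.1, e.2)) =
        (l'.map (fun e => s(e.1, e.2))).map (Sym2.map φ) := by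
      unfold mp
      rw [List.map_map, List.map_map]
      rfl
    rw [h2] at h1
    exact List.Nodup.of_map _ h1

theorem gg_add {V : Type} {D : ℕ} (G : SimpleGraph V) (hG : GG D G) (u v : V) (huv : u ≠ v)
    (hn : ¬ G.Adj u v) (hd : dgr G u + dgr G v < D) (G' : SimpleGraph V)
    (hG' : ∀ x y, G'.Adj x y ↔ G.Adj x y ∨ s(x, y) = s(u, v)) : GG D G' := by
  obtain ⟨l, hl, hg⟩ := hG
  refine ⟨(u, v) :: l, ⟨?_, ?_, ?_⟩, good_add l u v huv hg (by rw [dg_rep hl, dg_rep hl]; exact hd)⟩
  · intro e he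
    rcases List.mem_cons.1 he with rfl | he
    · exact (hG' _ _).2 (Or.inr rfl)
    · exact (hG' _ _).2 (Or.inl (hl.1 e he))
  · intro x y hxy
    rcases (hG' _ _).1 hxy with h | h
    · rcases hl.2.1 x y h with h1 | h1
      · exact Or.inl (List.mem_cons_of_mem _ h1)
      · exact Or.inr (List.mem_cons_of_mem _ h1)
    · rw [Sym2.eq_iff] at h
      rcases h with ⟨rfl, rfl⟩ | ⟨rfl, rfl⟩
      · exact Or.inl (by simp)
      · exact Or.inr (by simp)
  · rw [List.map_cons, List.nodup_cons]
    refine ⟨?_, hl.2.2⟩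
    intro h
    obtain ⟨e, he, h1⟩ := List.mem_map.1 h
    apply hn
    rw [← SimpleGraph.mem_edgeSet, ← h1, SimpleGraph.mem_edgeSet]
    exact hl.1 e he

/-- two copies of `G` in which every vertex of `S` is joined to its copy -/
def dblG {V : Type} (S : Set V) (G : SimpleGraph V) : SimpleGraph (V × Bool) where
  Adj x y := (x.2 = y.2 ∧ G.Adj x.1 y.1) ∨ (x.2 ≠ y.2 ∧ x.1 = y.1 ∧ x.1 ∈ S)
  symm := ⟨by
    rintro x y (⟨h1, h2⟩ | ⟨h1, h2, h3⟩)
    · exact Or.inl ⟨h1.symm, h2.symm⟩
    · exact Or.inr ⟨h1.symm, h2.symm, h2 ▸ h3⟩⟩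
  loopless := ⟨by
    rintro x (⟨_, h2⟩ | ⟨h1, _⟩)
    · exact G.loopless.irrefl _ h2
    · exact h1 rfl⟩

end Pool.Agent.R804.LD
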