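import Pool.Agent.R804.LD.Gph

/-! Doubles, products and greedy orders. -/

set_option autoImplicit false

namespace Pool.Agent.R804.LD

open Finset
open scoped Classical

lemma good_le {V : Type} {D : ℕ} {l : List (V × V)} (h : Good D l) (v : V) : dg l v ≤ D := by
  obtain ⟨M, h1, _⟩ := h
  have := h1 v
  omega

lemma good_inst {V : Type} {D : ℕ} {l : List (V × V)} (i1 i2 : DecidableEq V)
    (h : @Good V i1 D l) : @Good V i2 D l := by
  rw [Subsingleton.elim i2 i1]
  exact h

theorem gg_dbl {V : Type} [Finite V] {D : ℕ} (G : SimpleGraph V) (hG : GG D G) (S : Set V)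
    (hS : ∀ v ∈ S, dgr G v < D) : GG D (dblG S G) := by
  have := Fintype.ofFinite V
  obtain ⟨l, hl, hg⟩ := hG
  let T : List V := (univ.filter (fun v => v ∈ S)).toList
  have hTn : T.Nodup := Finset.nodup_toList _
  have hTm : ∀ v, v ∈ T ↔ v ∈ S := fun v => by simp [T]
  refine ⟨dbl T l, ⟨?_, ?_, ?_⟩, ?_⟩
  · intro e he
    unfold dbl mp at he
    simp only [List.mem_append, List.mem_map] at he
    rcases he with ⟨v, hv, rfl⟩ | ⟨e, he, rfl⟩ | ⟨e, he, rfl⟩
    · exact Or.inr ⟨by simp, rfl, (hTm v).1 hv⟩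
    · exact Or.inl ⟨rfl, hl.1 e he⟩
    · exact Or.inl ⟨rfl, hl.1 e he⟩
  · rintro ⟨u, a⟩ ⟨v, b⟩ huv
    unfold dbl mp
    simp only [List.mem_append, List.mem_map]
    rcases huv with ⟨h1, h2⟩ | ⟨h1, h2, h3⟩
    · simp only at h1 h2
      subst h1
      rcases hl.2.1 u v h2 with h3 | h3
      · left
        right
        cases a
        · exact Or.inl ⟨_, h3, rfl⟩
        · exact Or.inr ⟨_, h3, rfl⟩
      · right
        right
        cases a
        · exact Or.inl ⟨_, h3, rfl⟩
        · exact Or.inr ⟨_, h3, rfl⟩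
    · simp only at h1 h2 h3
      subst h2
      cases a
      · cases b
        · exact absurd rfl h1
        · exact Or.inl (Or.inl ⟨u, (hTm u).2 h3, rfl⟩)
      · cases b
        · exact Or.inr (Or.inl ⟨u, (hTm u).2 h3, rfl⟩)
        · exact absurd rfl h1
  · unfold dbl mp
    rw [List.map_append, List.map_append, List.map_map, List.map_map, List.map_map]
    have hn0 : (l.map ((fun e : (V × Bool) × (V × Bool) => s(e.1, e.2)) ∘
        fun e : V × V => (i0 e.1, i0 e.2))).Nodup := by
      have h1 : ((fun e : (V × Bool) × (V × Bool) => s(e.1, e.2)) ∘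
        fun e : V × V => (i0 e.1, i0 e.2)) = (Sym2.map i0) ∘ (fun e : V × V => s(e.1, e.2)) := rfl
      rw [h1, ← List.map_map]
      exact hl.2.2.map (Sym2.map.injective i0_inj)
    have hn1 : (l.map ((fun e : (V × Bool) × (V × Bool) => s(e.1, e.2)) ∘
        fun e : V × V => (i1 e.1, i1 e.2))).Nodup := by
      have h1 : ((fun e : (V × Bool) × (V × Bool) => s(e.1, e.2)) ∘
        fun e : V × V => (i1 e.1, i1 e.2)) = (Sym2.map i1) ∘ (fun e : V × V => s(e.1, e.2)) := rfl
      rw [h1, ← List.map_map]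
      exact hl.2.2.map (Sym2.map.injective i1_inj)
    have hnT : (T.map ((fun e : (V × Bool) × (V × Bool) => s(e.1, e.2)) ∘
        fun v : V => ((v, false), (v, true)))).Nodup := by
      refine hTn.map ?_
      intro v w hvw
      simp only [Function.comp, Sym2.eq_iff, Prod.mk.injEq] at hvw
      rcases hvw with ⟨⟨h, _⟩, _⟩ | ⟨⟨h, _⟩, _⟩ <;> exact h
    rw [List.nodup_append, List.nodup_append]
    refine ⟨hnT, ⟨hn0, hn1, ?_⟩, ?_⟩
    · intro x hx y hy hxy
      obtain ⟨e, _, rfl⟩ := List.mem_map.1 hx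
      obtain ⟨f, _, rfl⟩ := List.mem_map.1 hy
      simp only [Function.comp, Sym2.eq_iff, i0, i1, Prod.mk.injEq] at hxy
      rcases hxy with ⟨⟨_, h⟩, _⟩ | ⟨⟨_, h⟩, _⟩ <;> exact Bool.noConfusion h
    · intro x hx y hy hxy
      obtain ⟨v, _, rfl⟩ := List.mem_map.1 hx
      rcases List.mem_append.1 hy with hy | hy
      · obtain ⟨f, _, rfl⟩ := List.mem_map.1 hy
        simp only [Function.comp, Sym2.eq_iff, i0, Prod.mk.injEq] at hxy
        rcases hxy with ⟨_, ⟨_, h⟩⟩ | ⟨_, ⟨_, h⟩⟩ <;> exact Bool.noConfusion h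
      · obtain ⟨f, _, rfl⟩ := List.mem_map.1 hy
        simp only [Function.comp, Sym2.eq_iff, i1, Prod.mk.injEq] at hxy
        rcases hxy with ⟨⟨_, h⟩, _⟩ | ⟨⟨_, h⟩, _⟩ <;> exact Bool.noConfusion h
  · refine good_inst _ _ (good_dbl T l hg fun v => ?_)
    by_cases hv : v ∈ S
    · have h1 := hS v hv
      rw [← dg_rep hl] at h1
      have h2 := List.nodup_iff_count_le_one.1 hTn v
      omega
    · rw [List.count_eq_zero_of_not_mem (fun h => hv ((hTm v).1 h)), add_zero]
      exact good_le hg v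

open Pool.Agent.W426.LE.EL in
/-- good graphs are `D`-edge-choosable -/
theorem gg_EL {V : Type} [Finite V] {D : ℕ} (G : SimpleGraph V) (hG : GG D G) : EL G D := by
  have := Fintype.ofFinite V
  obtain ⟨l, hl, hg⟩ := hG
  intro L hL
  obtain ⟨f, hf1, hf2⟩ := good_choose l (rep_ne hl) hg
    (fun i => L ⟨s((l.get i).1, (l.get i).2), hl.1 _ (List.get_mem l i)⟩) (fun i => hL _)
  have hidx : ∀ e : G.edgeSet, ∃ i : Fin l.length, s((l.get i).1, (l.get i).2) = (e : Sym2 V) := by
    rintro ⟨e, he⟩
    induction e using Sym2.ind with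
    | _ u v =>
      rcases hl.2.1 u v he with h | h
      · obtain ⟨i, hi⟩ := List.mem_iff_get.1 h
        exact ⟨i, by rw [hi]⟩
      · obtain ⟨i, hi⟩ := List.mem_iff_get.1 h
        exact ⟨i, by rw [hi]; exact Sym2.eq_swap⟩
  choose idx hidx using hidx
  refine ⟨fun e => f (idx e), fun e => ?_, ?_⟩
  · have h1 := hf1 (idx e)
    have h2 : (⟨s((l.get (idx e)).1, (l.get (idx e)).2), hl.1 _ (List.get_mem l (idx e))⟩ :
        G.edgeSet) = e := Subtype.ext (hidx e)
    rw [h2] at h1
    exact h1
  · intro e e' hadj hff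
    rw [SimpleGraph.lineGraph_adj_iff_exists] at hadj
    obtain ⟨hne, v, hv, hv'⟩ := hadj
    rw [← hidx e, Sym2.mem_iff] at hv
    rw [← hidx e', Sym2.mem_iff] at hv'
    have h1 := hf2 v (idx e) (idx e') hv hv' hff
    apply hne
    exact Subtype.ext ((hidx e).symm.trans ((congrArg (fun i : Fin l.length =>
      s((l.get i).1, (l.get i).2)) h1).trans (hidx e')))

/-- greedy orders -/
theorem gg_greedy {V : Type} [Finite V] {D : ℕ} (G : SimpleGraph V)
    (h : ∀ F : SimpleGraph V, F ≤ G → F ≠ ⊥ →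
      ∃ u v, F.Adj u v ∧ dgr F u + dgr F v ≤ D + 1) : GG D G := by
  have key : ∀ n : ℕ, ∀ F : SimpleGraph V, F ≤ G → F.edgeSet.ncard = n → GG D F := by
    intro n
    induction n with
    | zero =>
      intro F _ hF
      have h1 : F.edgeSet = ∅ := (Set.ncard_eq_zero (Set.toFinite _)).1 hF
      have h2 : F = ⊥ := SimpleGraph.edgeSet_eq_empty.1 h1
      rw [h2]
      exact gg_bot D
    | succ n ih =>
      intro F hFG hF
      have hne : F ≠ ⊥ := by
        rintro rfl
        simp at hF
      obtain ⟨u, v, huv, hd⟩ := h F hFG hne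
      let F' : SimpleGraph V := F.deleteEdges {s(u, v)}
      have hF' : F' ≤ G := (SimpleGraph.deleteEdges_le _).trans hFG
      have hcard : F'.edgeSet.ncard = n := by
        have h1 : F'.edgeSet = F.edgeSet \ {s(u, v)} := SimpleGraph.edgeSet_deleteEdges _
        rw [h1, Set.ncard_sdiff_singleton_of_mem (show s(u, v) ∈ F.edgeSet from huv), hF]
        rfl
      have hadj : ∀ x y, F'.Adj x y ↔ F.Adj x y ∧ s(x, y) ≠ s(u, v) := by
        intro x y
        rw [SimpleGraph.deleteEdges_adj]
        simp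
      have hnu : ¬ F'.Adj u v := fun h1 => ((hadj u v).1 h1).2 rfl
      have hdu : dgr F' u + 1 ≤ dgr F u := by
        unfold dgr
        have h1 : insert v (F'.neighborSet u) ⊆ F.neighborSet u := by
          intro w hw
          rcases Set.mem_insert_iff.1 hw with rfl | hw
          · exact huv
          · exact ((hadj u w).1 hw).1
        have h2 := Set.ncard_le_ncard h1 (Set.toFinite _)
        rw [Set.ncard_insert_of_notMem (show v ∉ F'.neighborSet u from hnu)
          (Set.toFinite _)] at h2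
        exact h2
      have hdv : dgr F' v + 1 ≤ dgr F v := by
        unfold dgr
        have h1 : insert u (F'.neighborSet v) ⊆ F.neighborSet v := by
          intro w hw
          rcases Set.mem_insert_iff.1 hw with rfl | hw
          · exact huv.symm
          · exact ((hadj v w).1 hw).1
        have h2 := Set.ncard_le_ncard h1 (Set.toFinite _)
        rw [Set.ncard_insert_of_notMem (show u ∉ F'.neighborSet v from fun h => hnu h.symm)
          (Set.toFinite _)] at h2
        exact h2
      refine gg_add F' (ih F' hF' hcard) u v huv.ne hnu (by omega) F ?_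
      intro x y
      rw [hadj]
      constructor
      · intro h1
        by_cases h2 : s(x, y) = s(u, v)
        · exact Or.inr h2
        · exact Or.inl ⟨h1, h2⟩
      · rintro (h1 | h1)
        · exact h1.1
        · rw [← SimpleGraph.mem_edgeSet, h1, SimpleGraph.mem_edgeSet]
          exact huv
  exact key _ G le_rfl rfl

/-- every nonempty set `X` of vertices contains one with at most `k` neighbours in `X` -/
def Degen {V : Type} (k : ℕ) (G : SimpleGraph V) : Prop :=
  ∀ X : Set V, X.Nonempty → ∃ v ∈ X, {w | w ∈ X ∧ G.Adj v w}.ncard ≤ k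

theorem gg_degen {V : Type} [Finite V] {D d k : ℕ} (G : SimpleGraph V) (hd : ∀ v, dgr G v ≤ d)
    (hk : Degen k G) (hD : d + k ≤ D + 1) : GG D G := by
  refine gg_greedy G fun F hF hne => ?_
  let X : Set V := {v | ∃ w, F.Adj v w}
  have hX : X.Nonempty := by
    by_contra hX
    apply hne
    ext u v
    simp only [SimpleGraph.bot_adj, iff_false]
    intro huv
    exact hX ⟨u, v, huv⟩
  obtain ⟨v, ⟨w, hvw⟩, hv⟩ := hk X hX
  refine ⟨v, w, hvw, ?_⟩
  have h1 : dgr F v ≤ k := by
    refine le_trans (Set.ncard_le_ncard ?_ (Set.toFinite _)) hv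
    intro x hx
    exact ⟨⟨v, SimpleGraph.Adj.symm hx⟩, hF hx⟩
  have h2 : dgr F w ≤ d := by
    refine le_trans (Set.ncard_le_ncard ?_ (Set.toFinite _)) (hd w)
    intro x hx
    exact hF hx
  omega

end Pool.Agent.R804.LD
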