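import Pool.Agent.R804.LD.Prm
import Pool.Agent.W426.LE.EL

/-! From the signed numbers to list colourings. -/

set_option autoImplicit false

namespace Pool.Agent.R804.LD

open Finset

variable {D : ℕ} {V : Type} [DecidableEq V]

/-- the part of the weight of the colouring `x` which belongs to the edge `i` and its end `v` -/
def fac (l : List (V × V)) (M : V → Finset (Fin D)) (x : Fin l.length → Fin D)
    (i : Fin l.length) (v : V) : ℤ :=
  eps (x i) (M v) * ∏ j, if j < i ∧ inE v (l.get j) then ss (x i) (x j) else 1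

def WW (l : List (V × V)) (M : V → Finset (Fin D)) (x : Fin l.length → Fin D) : ℤ :=
  ∏ i, fac l M x i (l.get i).1 * fac l M x i (l.get i).2

lemma WW_cons (e : V × V) (l : List (V × V)) (M : V → Finset (Fin D)) (c : Fin D)
    (x : Fin l.length → Fin D) :
    WW (e :: l) M (Fin.cons c x : Fin (l.length + 1) → Fin D) =
      eps c (M e.1) * eps c (M e.2) * WW l (upd M e c) x := by
  by_cases h : eps c (M e.1) * eps c (M e.2) = 0
  · rw [h, zero_mul]
    unfold WW
    refine prod_eq_zero (mem_univ (0 : Fin (l.length + 1))) ?_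
    unfold fac
    have h0 : ∀ v, (∏ j : Fin (l.length + 1), if j < 0 ∧ inE v ((e :: l).get j) then
        ss ((Fin.cons c x : Fin (l.length + 1) → Fin D) 0)
          ((Fin.cons c x : Fin (l.length + 1) → Fin D) j) else 1) = 1 := by
      intro v
      refine prod_eq_one fun j _ => if_neg ?_
      rintro ⟨h1, _⟩
      exact Fin.not_lt_zero j h1
    have h1 : ((e :: l).get (0 : Fin (l.length + 1))) = e := rfl
    simp only [List.length_cons] at *
    rw [h0, h0, h1]
    simp only [Fin.cons_zero, mul_one]
    exact h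
  · unfold WW
    have h2 : ∀ (f : Fin (l.length + 1) → ℤ), ∏ i, f i = f 0 * ∏ i : Fin l.length, f i.succ :=
      fun f => Fin.prod_univ_succ f
    have h3 := h2 (fun i => fac (e :: l) M (Fin.cons c x : Fin (l.length + 1) → Fin D) i
      ((e :: l).get i).1 * fac (e :: l) M (Fin.cons c x : Fin (l.length + 1) → Fin D) i
      ((e :: l).get i).2)
    refine h3.trans ?_
    have h4 : ∀ v, fac (e :: l) M (Fin.cons c x : Fin (l.length + 1) → Fin D)
        (0 : Fin (l.length + 1)) v = eps c (M v) := by
      intro v
      unfold fac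
      have h0 : (∏ j : Fin (l.length + 1), if j < 0 ∧ inE v ((e :: l).get j) then
          ss ((Fin.cons c x : Fin (l.length + 1) → Fin D) 0)
            ((Fin.cons c x : Fin (l.length + 1) → Fin D) j) else 1) = 1 := by
        refine prod_eq_one fun j _ => if_neg ?_
        rintro ⟨h1, _⟩
        exact Fin.not_lt_zero j h1
      refine (congrArg₂ (· * ·) rfl h0).trans ?_
      simp only [Fin.cons_zero, mul_one]
    have h5 : ∀ (i : Fin l.length) v, fac (e :: l) M (Fin.cons c x : Fin (l.length + 1) → Fin D)
        i.succ v = fac l (upd M e c) x i v := by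
      intro i v
      unfold fac
      have h6 : (∏ j : Fin (l.length + 1), if j < i.succ ∧ inE v ((e :: l).get j) then
          ss ((Fin.cons c x : Fin (l.length + 1) → Fin D) i.succ)
            ((Fin.cons c x : Fin (l.length + 1) → Fin D) j) else 1) =
          (if inE v e then ss (x i) c else 1) *
            ∏ j : Fin l.length, if j < i ∧ inE v (l.get j) then ss (x i) (x j) else 1 := by
        rw [Fin.prod_univ_succ]
        congr 1
        · simp only [Fin.succ_pos, true_and, Fin.cons_zero, Fin.cons_succ]
          rfl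
        · refine prod_congr rfl fun j _ => ?_
          simp only [Fin.succ_lt_succ_iff, Fin.cons_succ]
          rfl
      refine (congrArg₂ (· * ·) rfl h6).trans ?_
      rw [eps_upd M e c (x i) v h]
      show eps ((Fin.cons c x : Fin (l.length + 1) → Fin D) i.succ) (M v) * _ = _
      rw [Fin.cons_succ]
      ring
    rw [h4, h4]
    congr 1
    refine prod_congr rfl fun i _ => ?_
    rw [h5, h5]
    rfl

theorem A_eq (l : List (V × V)) : ∀ M : V → Finset (Fin D), A l M = ∑ x, WW l M x := by
  induction l with
  | nil =>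
    intro M
    show 1 = ∑ x : Fin 0 → Fin D, WW [] M x
    rw [Fintype.sum_unique]
    unfold WW
    exact (Fin.prod_univ_zero (M := ℤ) _).symm
  | cons e l ih =>
    intro M
    show ∑ c, eps c (M e.1) * eps c (M e.2) * A l (upd M e c) =
      ∑ x : Fin (l.length + 1) → Fin D, WW (e :: l) M x
    rw [← Equiv.sum_comp (Fin.consEquiv (fun _ => Fin D)), Fintype.sum_prod_type]
    refine sum_congr rfl fun c _ => ?_
    rw [ih, mul_sum]
    refine sum_congr rfl fun x _ => ?_
    exact (WW_cons e l M c x).symm

open Pool.Agent.W426.LE in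
lemma sg_eq_prod (f : Fin D → Fin D) :
    sg (Equiv.refl (Fin D)) f = ∏ a, ∏ b ∈ Iio a, ss (f a) (f b) := by
  by_cases h : Function.Bijective f
  · rw [sg_of_bij _ _ h]
    have h1 : (Equiv.ofBijective f h).trans (Equiv.refl (Fin D)).symm =
        (Equiv.ofBijective f h : Equiv.Perm (Fin D)) := rfl
    have h2 : ∀ (i1 i2 : DecidableEq (Fin D)) (σ : Equiv.Perm (Fin D)),
        (@Equiv.Perm.sign _ i1 _ σ) = (@Equiv.Perm.sign _ i2 _ σ) := by
      intro i1 i2 σ
      rw [Subsingleton.elim i1 i2]
    rw [h1, h2 _ inferInstance, Equiv.Perm.sign_eq_prod_prod_Iio]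
    push_cast
    refine prod_congr rfl fun a _ => prod_congr rfl fun b hb => ?_
    have hne : f b ≠ f a := fun h3 => (ne_of_lt (mem_Iio.1 hb)) (h.1 h3)
    unfold ss
    simp only [Equiv.ofBijective_apply]
    rcases lt_or_gt_of_ne hne with h4 | h4
    · simp [h4]
    · simp [h4, not_lt.2 h4.le]
  · rw [sg_of_not _ _ h]
    have h1 : ¬ Function.Injective f := fun h2 => h (Finite.injective_iff_bijective.1 h2)
    unfold Function.Injective at h1
    push Not at h1
    obtain ⟨a, b, h2, h3⟩ := h1
    rcases lt_or_gt_of_ne h3 with h4 | h4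
    · refine (prod_eq_zero (mem_univ b) (prod_eq_zero (mem_Iio.2 h4) ?_)).symm
      rw [h2, ss_self]
    · refine (prod_eq_zero (mem_univ a) (prod_eq_zero (mem_Iio.2 h4) ?_)).symm
      rw [h2, ss_self]

variable [Fintype V]

lemma WW_empty (l : List (V × V)) (hl : ∀ e ∈ l, e.1 ≠ e.2) (x : Fin l.length → Fin D) :
    WW l (fun _ => ∅) x = ∏ v, ∏ i ∈ univ.filter (fun i => inE v (l.get i)),
      ∏ j ∈ univ.filter (fun j => inE v (l.get j) ∧ j < i), ss (x i) (x j) := by
  have h1 : ∀ i v, fac l (fun _ => ∅) x i v =
      ∏ j ∈ univ.filter (fun j => inE v (l.get j) ∧ j < i), ss (x i) (x j) := by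
    intro i v
    unfold fac
    have : eps (x i) ∅ = 1 := prod_empty
    rw [this, one_mul, prod_filter]
    refine prod_congr rfl fun j _ => ?_
    by_cases h : j < i <;> by_cases h' : inE v (l.get j) <;> simp [h, h']
  unfold WW
  simp only [h1]
  have h2 : ∀ v, ∏ i ∈ univ.filter (fun i => inE v (l.get i)),
      (∏ j ∈ univ.filter (fun j => inE v (l.get j) ∧ j < i), ss (x i) (x j)) =
      ∏ i, if inE v (l.get i) then
        (∏ j ∈ univ.filter (fun j => inE v (l.get j) ∧ j < i), ss (x i) (x j)) else 1 :=
    fun v => prod_filter _ _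
  simp only [h2]
  rw [prod_comm]
  refine prod_congr rfl fun i _ => ?_
  have hne := hl (l.get i) (List.get_mem l i)
  rw [← prod_filter]
  have h3 : univ.filter (fun v => inE v (l.get i)) = {(l.get i).1, (l.get i).2} := by
    ext v
    simp [inE]
  rw [h3, prod_pair hne]

end Pool.Agent.R804.LD
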