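import Pool.Agent.R804.LD.Core

/-! Signed numbers of edge colourings of a list of edges avoiding given sets of colours. -/

set_option autoImplicit false

namespace Pool.Agent.R804.LD

open Finset

variable {D : ℕ} {V : Type} [DecidableEq V]

/-- insert the colour `c` at both ends of `e` -/
def upd (M : V → Finset (Fin D)) (e : V × V) (c : Fin D) : V → Finset (Fin D) :=
  fun w => if w = e.1 ∨ w = e.2 then insert c (M w) else M w

/-- signed number of colourings of the edges of the list that avoid `M v` at `v` -/
def A : List (V × V) → (V → Finset (Fin D)) → ℤ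
  | [], _ => 1
  | e :: l, M => ∑ c, eps c (M e.1) * eps c (M e.2) * A l (upd M e c)

/-- the number of edges of the list at `v` -/
def dg (l : List (V × V)) (v : V) : ℕ := l.countP (fun e => decide (v = e.1 ∨ v = e.2))

def Good (D : ℕ) (l : List (V × V)) : Prop :=
  ∃ M : V → Finset (Fin D), (∀ v, (M v).card + dg l v = D) ∧ A l M ≠ 0

lemma dg_cons (e : V × V) (l : List (V × V)) (v : V) :
    dg (e :: l) v = dg l v + if v = e.1 ∨ v = e.2 then 1 else 0 := by
  unfold dg
  rw [List.countP_cons]
  simp

lemma good_nil : Good D ([] : List (V × V)) :=
  ⟨fun _ => univ, fun v => by simp [dg], by simp [A]⟩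

/-- adding an edge -/
theorem good_add (l : List (V × V)) (u v : V) (huv : u ≠ v) (h : Good D l)
    (hd : dg l u + dg l v < D) : Good D ((u, v) :: l) := by
  obtain ⟨M, hM, hA⟩ := h
  by_contra hno
  unfold Good at hno
  push Not at hno
  set a := (M u).card with ha
  set b := (M v).card with hb
  have hMu := hM u
  have hMv := hM v
  let N : PP D → V → Finset (Fin D) := fun p w => if w = u then p.1 else if w = v then p.2 else M w
  let g : PP D → ℤ := fun p => if p.1.card = a ∧ p.2.card = b then A l (N p) else 0
  have hN : ∀ (p : PP D) (c : Fin D), upd (N p) (u, v) c = N (insert c p.1, insert c p.2) := by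
    intro p c
    funext w
    unfold upd
    simp only [N]
    by_cases h1 : w = u
    · simp [h1]
    · by_cases h2 : w = v
      · simp [h2, huv.symm]
      · simp [h1, h2]
  have h0 := lef g a b (by omega) (by
    intro p hp
    by_contra hc
    exact hp (if_neg hc)) (by
    intro p
    have e1 : ∀ c, dn g c p = eps c p.1 * eps c p.2 * g (insert c p.1, insert c p.2) := by
      intro c
      unfold dn
      split_ifs with hc
      · have h1 : tog c p = (insert c p.1, insert c p.2) := by
          unfold tog
          rw [sd_not_mem hc.1, sd_not_mem hc.2]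
        rw [h1]
        unfold ee
        rw [erase_eq_of_notMem hc.1, erase_eq_of_notMem hc.2]
      · by_cases h1 : c ∈ p.1
        · rw [eps_mem h1]
          ring
        · have h2 : c ∈ p.2 := by
            by_contra h2
            exact hc ⟨h1, h2⟩
          rw [eps_mem h2]
          ring
    simp only [e1]
    by_cases hc : p.1.card + 1 = a ∧ p.2.card + 1 = b
    · have h1 := hno (N p) (by
        intro w
        rw [dg_cons]
        simp only [N]
        by_cases h1 : w = u
        · subst h1
          simp only [if_true, true_or]
          omega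
        · by_cases h2 : w = v
          · subst h2
            simp only [if_neg h1, if_true, or_true]
            omega
          · simp only [h1, h2, or_self, if_false]
            rw [add_zero]
            exact hM w)
      have h2 : A ((u, v) :: l) (N p) =
          ∑ c, eps c p.1 * eps c p.2 * A l (N (insert c p.1, insert c p.2)) := by
        show ∑ c, eps c (N p u) * eps c (N p v) * A l (upd (N p) (u, v) c) = _
        refine sum_congr rfl fun c _ => ?_
        rw [hN]
        have h3 : N p u = p.1 := by simp [N]
        have h4 : N p v = p.2 := by simp [N, huv.symm]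
        rw [h3, h4]
      rw [← h1, h2]
      refine sum_congr rfl fun c _ => ?_
      by_cases h1 : c ∈ p.1
      · rw [eps_mem h1]
        ring
      · by_cases h2 : c ∈ p.2
        · rw [eps_mem h2]
          ring
        · have h3 : g (insert c p.1, insert c p.2) = A l (N (insert c p.1, insert c p.2)) := by
            refine if_pos ?_
            simp only [card_insert_of_notMem h1, card_insert_of_notMem h2]
            exact hc
          rw [h3]
    · refine sum_eq_zero fun c _ => ?_
      by_cases h1 : c ∈ p.1
      · rw [eps_mem h1]
        ring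
      · by_cases h2 : c ∈ p.2
        · rw [eps_mem h2]
          ring
        · have h3 : g (insert c p.1, insert c p.2) = 0 := by
            refine if_neg ?_
            simp only [card_insert_of_notMem h1, card_insert_of_notMem h2]
            exact hc
          rw [h3]
          ring)
  have h1 := h0 (M u, M v)
  have h2 : g (M u, M v) = A l M := by
    have h3 : N (M u, M v) = M := by
      funext w
      simp only [N]
      by_cases h1 : w = u
      · simp [h1]
      · by_cases h2 : w = v
        · simp [h2, huv.symm]
        · simp [h1, h2]
    have h4 : g (M u, M v) = A l (N (M u, M v)) := if_pos ⟨ha.symm, hb.symm⟩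
    rw [h4, h3]
  exact hA (h2 ▸ h1)

/-! ### injective images and disjoint copies -/

variable {W : Type} [DecidableEq W]

def mp (φ : V → W) (l : List (V × V)) : List (W × W) := l.map (fun e => (φ e.1, φ e.2))

lemma upd_comp (φ : V → W) (hφ : Function.Injective φ) (M : W → Finset (Fin D)) (e : V × V)
    (c : Fin D) : (fun v => upd M (φ e.1, φ e.2) c (φ v)) = upd (fun v => M (φ v)) e c := by
  funext v
  unfold upd
  simp only [hφ.eq_iff]

lemma A_map (φ : V → W) (hφ : Function.Injective φ) (l : List (V × V)) :
    ∀ M : W → Finset (Fin D), A (mp φ l) M = A l (fun v => M (φ v)) := by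
  induction l with
  | nil => intro M; rfl
  | cons e l ih =>
    intro M
    show ∑ c, eps c (M (φ e.1)) * eps c (M (φ e.2)) * A (mp φ l) (upd M (φ e.1, φ e.2) c) =
      ∑ c, eps c (M (φ e.1)) * eps c (M (φ e.2)) * A l (upd (fun v => M (φ v)) e c)
    refine sum_congr rfl fun c _ => ?_
    rw [ih, upd_comp φ hφ]

def i0 (v : V) : V × Bool := (v, false)
def i1 (v : V) : V × Bool := (v, true)

omit [DecidableEq V] in
lemma i0_inj : Function.Injective (i0 : V → V × Bool) := fun _ _ h => congrArg Prod.fst h
omit [DecidableEq V] in
lemma i1_inj : Function.Injective (i1 : V → V × Bool) := fun _ _ h => congrArg Prod.fst h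

lemma A_two (l l' : List (V × V)) : ∀ M : V × Bool → Finset (Fin D),
    A (mp i0 l ++ mp i1 l') M = A l (fun v => M (v, false)) * A l' (fun v => M (v, true)) := by
  induction l with
  | nil =>
    intro M
    show A (mp i1 l') M = 1 * _
    rw [one_mul, A_map _ i1_inj]
    rfl
  | cons e l ih =>
    intro M
    show ∑ c, eps c (M (i0 e.1)) * eps c (M (i0 e.2)) *
        A (mp i0 l ++ mp i1 l') (upd M (i0 e.1, i0 e.2) c) = (∑ c, _) * _
    rw [sum_mul]
    refine sum_congr rfl fun c _ => ?_
    rw [ih]
    have h1 : (fun v => upd M (i0 e.1, i0 e.2) c (v, false)) =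
        upd (fun v => M (v, false)) e c := upd_comp i0 i0_inj M e c
    have h2 : (fun v => upd M (i0 e.1, i0 e.2) c (v, true)) = fun v => M (v, true) := by
      funext v
      unfold upd i0
      simp
    rw [h1, h2]
    show eps c (M (e.1, false)) * eps c (M (e.2, false)) *
        (A l (upd (fun v => M (v, false)) e c) * A l' (fun v => M (v, true))) =
      eps c (M (e.1, false)) * eps c (M (e.2, false)) *
        A l (upd (fun v => M (v, false)) e c) * A l' (fun v => M (v, true))
    ring

/-- two copies joined by the edges `(v, false) (v, true)`, `v` in the list `S` -/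
def dbl (S : List V) (l : List (V × V)) : List ((V × Bool) × (V × Bool)) :=
  S.map (fun v => ((v, false), (v, true))) ++ (mp i0 l ++ mp i1 l)

lemma upd_sym (M : V × Bool → Finset (Fin D)) (hM : ∀ v, M (v, true) = M (v, false)) (v : V)
    (c : Fin D) : ∀ w, upd M ((v, false), (v, true)) c (w, true) =
      upd M ((v, false), (v, true)) c (w, false) := by
  intro w
  unfold upd
  simp only [Prod.mk.injEq, hM]
  by_cases h : w = v <;> simp [h]

lemma dbl_nonneg (l : List (V × V)) (S : List V) : ∀ M : V × Bool → Finset (Fin D),
    (∀ v, M (v, true) = M (v, false)) → 0 ≤ A (dbl S l) M := by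
  induction S with
  | nil =>
    intro M hM
    show 0 ≤ A (mp i0 l ++ mp i1 l) M
    rw [A_two]
    simp only [hM]
    exact mul_self_nonneg _
  | cons v S ih =>
    intro M hM
    show 0 ≤ ∑ c, eps c (M (v, false)) * eps c (M (v, true)) *
      A (dbl S l) (upd M ((v, false), (v, true)) c)
    refine sum_nonneg fun c _ => ?_
    rw [hM v]
    exact mul_nonneg (mul_self_nonneg _) (ih _ (upd_sym M hM v c))

lemma dbl_pos (l : List (V × V)) (m : V → Finset (Fin D)) (hm : A l m ≠ 0) (S : List V) :
    ∀ M : V × Bool → Finset (Fin D), (∀ v, M (v, true) = M (v, false)) →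
    (∀ v, M (v, false) ⊆ m v) → (∀ v, (M (v, false)).card + S.count v = (m v).card) →
    0 < A (dbl S l) M := by
  induction S with
  | nil =>
    intro M hM h1 h2
    show 0 < A (mp i0 l ++ mp i1 l) M
    rw [A_two]
    simp only [hM]
    have h3 : (fun v => M (v, false)) = m := by
      funext v
      exact eq_of_subset_of_card_le (h1 v) (by have := h2 v; simp at this; omega)
    rw [h3]
    exact mul_self_pos.2 hm
  | cons v S ih =>
    intro M hM h1 h2
    show 0 < ∑ c, eps c (M (v, false)) * eps c (M (v, true)) *
      A (dbl S l) (upd M ((v, false), (v, true)) c)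
    have h3 : ∃ c ∈ m v, c ∉ M (v, false) := by
      by_contra hc
      push Not at hc
      have h4 := card_le_card (show m v ⊆ M (v, false) from hc)
      have h5 := h2 v
      rw [List.count_cons_self] at h5
      omega
    obtain ⟨c, hc1, hc2⟩ := h3
    refine sum_pos' (fun d _ => ?_) ⟨c, mem_univ c, ?_⟩
    · rw [hM v]
      exact mul_nonneg (mul_self_nonneg _) (dbl_nonneg l S _ (upd_sym M hM v d))
    · rw [hM v, eps_sq hc2, one_mul]
      refine ih _ (upd_sym M hM v c) ?_ ?_
      · intro w
        unfold upd
        by_cases hw : w = v
        · subst hw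
          simp only [true_or, if_true]
          exact insert_subset hc1 (h1 w)
        · simp only [Prod.mk.injEq, hw, false_and, or_self, if_false]
          exact h1 w
      · intro w
        have h5 := h2 w
        unfold upd
        by_cases hw : w = v
        · subst hw
          simp only [true_or, if_true]
          rw [card_insert_of_notMem hc2]
          rw [List.count_cons_self] at h5
          omega
        · simp only [Prod.mk.injEq, hw, false_and, or_self, if_false]
          rw [List.count_cons_of_ne (Ne.symm hw)] at h5
          exact h5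

lemma dg_append (l l' : List (V × V)) (v : V) : dg (l ++ l') v = dg l v + dg l' v := by
  unfold dg
  rw [List.countP_append]

lemma dg_map (φ : V → W) (hφ : Function.Injective φ) (l : List (V × V)) (v : V) :
    dg (mp φ l) (φ v) = dg l v := by
  unfold dg mp
  rw [List.countP_map]
  refine List.countP_congr fun e _ => ?_
  simp only [Function.comp, hφ.eq_iff]

omit [DecidableEq V] in
lemma dg_map_ne (φ : V → W) (l : List (V × V)) (w : W) (hw : ∀ v, w ≠ φ v) :
    dg (mp φ l) w = 0 := by
  unfold dg mp
  rw [List.countP_map, List.countP_eq_zero]
  intro e _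
  simp [hw]

lemma dg_cross (S : List V) (v : V) (b : Bool) :
    dg (S.map (fun v => ((v, false), (v, true)))) (v, b) = S.count v := by
  unfold dg
  rw [List.countP_map, List.count]
  refine List.countP_congr fun e _ => ?_
  simp only [Function.comp, Prod.mk.injEq, decide_eq_true_eq, beq_iff_eq]
  cases b <;> simp [eq_comm]

lemma dg_dbl (S : List V) (l : List (V × V)) (v : V) (b : Bool) :
    dg (dbl S l) (v, b) = S.count v + dg l v := by
  unfold dbl
  rw [dg_append, dg_append, dg_cross]
  cases b
  · have h1 : dg (mp i0 l) (v, false) = dg l v := dg_map i0 i0_inj l v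
    have h2 : dg (mp i1 l) ((v, false) : V × Bool) = 0 :=
      dg_map_ne i1 l _ (fun w h => by simp [i1] at h)
    omega
  · have h1 : dg (mp i1 l) (v, true) = dg l v := dg_map i1 i1_inj l v
    have h2 : dg (mp i0 l) ((v, true) : V × Bool) = 0 :=
      dg_map_ne i0 l _ (fun w h => by simp [i0] at h)
    omega

/-- doubling keeps the property -/
theorem good_dbl (S : List V) (l : List (V × V)) (h : Good D l)
    (hS : ∀ v, dg l v + S.count v ≤ D) : Good D (dbl S l) := by
  obtain ⟨m, hm, hA⟩ := h
  have h1 : ∀ v, ∃ t ⊆ m v, t.card = (m v).card - S.count v := fun v =>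
    exists_subset_card_eq (Nat.sub_le _ _)
  choose t ht1 ht2 using h1
  refine ⟨fun x => t x.1, ?_, ?_⟩
  · rintro ⟨v, b⟩
    show (t v).card + dg (dbl S l) (v, b) = D
    rw [dg_dbl, ht2]
    have := hm v
    have := hS v
    omega
  · refine (dbl_pos l m hA S _ (fun v => rfl) ht1 (fun v => ?_)).ne'
    show (t v).card + _ = _
    rw [ht2]
    have := hm v
    have := hS v
    omega

end Pool.Agent.R804.LD
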