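import Pool.Agent.R804.LD.Gph2

/-! Mirror graphs and Cartesian products. -/

set_option autoImplicit false

namespace Pool.Agent.R804.LD

open Finset
open scoped Classical

/-- Iterated doublings of a point with degrees at most `r`, and their subgraphs. -/
inductive Mirror (r : ℕ) : (W : Type) → SimpleGraph W → Prop
  | point (W : Type) (hW : Subsingleton W) (H : SimpleGraph W) : Mirror r W H
  | double (W : Type) (H : SimpleGraph W) (S : Set W)
      (hS : ∀ s ∈ S, (H.neighborSet s).ncard < r) (h : Mirror r W H) :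
      Mirror r (W × Bool) (dblG S H)
  | embed (W W' : Type) (H : SimpleGraph W) (H' : SimpleGraph W') (φ : W' → W)
      (hφ : Function.Injective φ) (hom : ∀ u v, H'.Adj u v → H.Adj (φ u) (φ v))
      (h : Mirror r W H) : Mirror r W' H'

lemma mirror_finite {r : ℕ} {W : Type} {H : SimpleGraph W} (h : Mirror r W H) : Finite W := by
  induction h with
  | point W hW H => exact Finite.of_subsingleton
  | double W H S hS h ih => exact inferInstance
  | embed W W' H H' φ hφ hom h ih => exact Finite.of_injective φ hφ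

lemma dgr_embed {W W' : Type} [Finite W] (H : SimpleGraph W) (H' : SimpleGraph W') (φ : W' → W)
    (hφ : Function.Injective φ) (hom : ∀ u v, H'.Adj u v → H.Adj (φ u) (φ v)) (v : W') :
    dgr H' v ≤ dgr H (φ v) := by
  unfold dgr
  rw [← Set.ncard_image_of_injective _ hφ]
  refine Set.ncard_le_ncard ?_ (Set.toFinite _)
  rintro _ ⟨w, hw, rfl⟩
  exact hom _ _ hw

lemma dgr_dbl_le {W : Type} [Finite W] (H : SimpleGraph W) (S : Set W) (x : W × Bool) :
    dgr (dblG S H) x ≤ dgr H x.1 + if x.1 ∈ S then 1 else 0 := by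
  unfold dgr
  have h1 : (dblG S H).neighborSet x ⊆ (fun w => (w, x.2)) '' (H.neighborSet x.1) ∪
      (if x.1 ∈ S then {(x.1, !x.2)} else ∅) := by
    rintro ⟨w, b⟩ (⟨h2, h3⟩ | ⟨h2, h3, h4⟩)
    · left
      simp only at h2 h3
      subst h2
      exact ⟨w, h3, rfl⟩
    · right
      simp only at h2 h3
      rw [if_pos h4]
      subst h3
      rw [Set.mem_singleton_iff]
      congr 1
      obtain ⟨v, a⟩ := x
      simp only at h2
      cases a <;> cases b <;> simp_all
  have h2 := Set.ncard_le_ncard h1 (Set.toFinite _)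
  refine h2.trans ((Set.ncard_union_le _ _).trans (Nat.add_le_add ?_ ?_))
  · exact Set.ncard_image_le (Set.toFinite _)
  · split_ifs
    · rw [Set.ncard_singleton]
    · rw [Set.ncard_empty]

lemma mirror_deg {r : ℕ} {W : Type} {H : SimpleGraph W} (h : Mirror r W H) : ∀ w, dgr H w ≤ r := by
  induction h with
  | point W hW H =>
    intro w
    unfold dgr
    have : H.neighborSet w = ∅ := by
      ext v
      simp only [SimpleGraph.mem_neighborSet, Set.mem_empty_iff_false, iff_false]
      intro h
      exact h.ne (Subsingleton.elim _ _)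
    rw [this, Set.ncard_empty]
    exact Nat.zero_le _
  | double W H S hS h ih =>
    intro w
    have := mirror_finite h
    refine (dgr_dbl_le H S w).trans ?_
    split_ifs with hw
    · exact hS _ hw
    · exact ih _
  | embed W W' H H' φ hφ hom h ih =>
    intro w
    have := mirror_finite h
    exact (dgr_embed H H' φ hφ hom w).trans (ih _)

lemma mirror_mono {r r' : ℕ} (hr : r ≤ r') {W : Type} {H : SimpleGraph W} (h : Mirror r W H) :
    Mirror r' W H := by
  induction h with
  | point W hW H => exact Mirror.point W hW H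
  | double W H S hS h ih => exact Mirror.double W H S (fun s hs => (hS s hs).trans_le hr) ih
  | embed W W' H H' φ hφ hom h ih => exact Mirror.embed W W' H H' φ hφ hom ih

lemma dgr_box {V W : Type} [Finite V] [Finite W] (G : SimpleGraph V) (H : SimpleGraph W)
    (x : V × W) : dgr (G.boxProd H) x = dgr G x.1 + dgr H x.2 := by
  unfold dgr
  have h1 : (G.boxProd H).neighborSet x = (fun v => (v, x.2)) '' (G.neighborSet x.1) ∪
      (fun w => (x.1, w)) '' (H.neighborSet x.2) := by
    ext ⟨v, w⟩
    simp only [SimpleGraph.mem_neighborSet, SimpleGraph.boxProd_adj, Set.mem_union, Set.mem_image,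
      Prod.mk.injEq]
    constructor
    · rintro (⟨h1, h2⟩ | ⟨h1, h2⟩)
      · exact Or.inl ⟨v, h1, rfl, h2⟩
      · exact Or.inr ⟨w, h1, h2, rfl⟩
    · rintro (⟨v', h1, rfl, h2⟩ | ⟨w', h1, h2, rfl⟩)
      · exact Or.inl ⟨h1, h2⟩
      · exact Or.inr ⟨h1, h2⟩
  rw [h1, Set.ncard_union_eq ?_ (Set.toFinite _) (Set.toFinite _),
    Set.ncard_image_of_injective _ (fun a b h => congrArg Prod.fst h),
    Set.ncard_image_of_injective _ (fun a b h => congrArg Prod.snd h)]
  rw [Set.disjoint_left]
  rintro _ ⟨v, hv, rfl⟩ ⟨w, hw, h⟩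
  rw [Prod.mk.injEq] at h
  rw [← h.1] at hv
  exact (G.loopless.irrefl _) hv

/-- products of good graphs with mirror graphs -/
theorem gg_prod {V : Type} [Finite V] {D r : ℕ} (G : SimpleGraph V) (hG : GG D G)
    (hd : ∀ v, dgr G v + r ≤ D) {W : Type} {H : SimpleGraph W} (h : Mirror r W H) :
    GG D (G.boxProd H) := by
  induction h with
  | point W hW H =>
    refine gg_sub (G.boxProd H) G Prod.fst ?_ ?_ hG
    · rintro ⟨a, b⟩ ⟨c, d⟩ h
      exact Prod.ext h (Subsingleton.elim _ _)
    · rintro ⟨a, b⟩ ⟨c, d⟩ h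
      rw [SimpleGraph.boxProd_adj] at h
      rcases h with ⟨h1, _⟩ | ⟨h1, _⟩
      · exact h1
      · exact absurd (Subsingleton.elim _ _) h1.ne
  | double W H S hS h ih =>
    have := mirror_finite h
    have h1 := gg_dbl (G.boxProd H) ih {x | x.2 ∈ S} (by
      rintro ⟨v, w⟩ hw
      rw [dgr_box]
      have h2 := hd v
      have h3 := hS w hw
      have h4 : dgr H w < r := h3
      show dgr G v + dgr H w < D
      omega)
    refine gg_sub _ _ (fun x : V × (W × Bool) => ((x.1, x.2.1), x.2.2)) ?_ ?_ h1
    · rintro ⟨a, b, c⟩ ⟨a', b', c'⟩ h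
      simp only [Prod.mk.injEq] at h
      obtain ⟨⟨rfl, rfl⟩, rfl⟩ := h
      rfl
    · rintro ⟨a, b, c⟩ ⟨a', b', c'⟩ h
      rw [SimpleGraph.boxProd_adj] at h
      rcases h with ⟨h1, h2⟩ | ⟨h1, h2⟩
      · simp only [Prod.mk.injEq] at h1 h2
        obtain ⟨rfl, rfl⟩ := h2
        exact Or.inl ⟨rfl, SimpleGraph.boxProd_adj.2 (Or.inl ⟨h1, rfl⟩)⟩
      · simp only at h1 h2
        subst h2
        rcases h1 with ⟨h3, h4⟩ | ⟨h3, h4, h5⟩
        · exact Or.inl ⟨h3, SimpleGraph.boxProd_adj.2 (Or.inr ⟨h4, rfl⟩)⟩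
        · exact Or.inr ⟨h3, Prod.ext rfl h4, h5⟩
  | embed W W' H H' φ hφ hom h ih =>
    refine gg_sub _ _ (fun x : V × W' => (x.1, φ x.2)) ?_ ?_ ih
    · rintro ⟨a, b⟩ ⟨a', b'⟩ h
      rw [Prod.mk.injEq] at h
      exact Prod.ext h.1 (hφ h.2)
    · rintro ⟨a, b⟩ ⟨a', b'⟩ h
      rw [SimpleGraph.boxProd_adj] at h ⊢
      rcases h with ⟨h1, h2⟩ | ⟨h1, h2⟩
      · exact Or.inl ⟨h1, congrArg φ h2⟩
      · exact Or.inr ⟨hom _ _ h1, h2⟩

/-- products of mirror graphs -/
theorem mirror_prod {r r' : ℕ} {W : Type} {H : SimpleGraph W} (h : Mirror r W H) {W' : Type}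
    {H' : SimpleGraph W'} (h' : Mirror r' W' H') : Mirror (r + r') (W × W') (H.boxProd H') := by
  induction h' with
  | point W' hW H' =>
    refine Mirror.embed W (W × W') H _ Prod.fst ?_ ?_ (mirror_mono (Nat.le_add_right _ _) h)
    · rintro ⟨a, b⟩ ⟨c, d⟩ h
      exact Prod.ext h (Subsingleton.elim _ _)
    · rintro ⟨a, b⟩ ⟨c, d⟩ h
      rw [SimpleGraph.boxProd_adj] at h
      rcases h with ⟨h1, _⟩ | ⟨h1, _⟩
      · exact h1
      · exact absurd (Subsingleton.elim _ _) h1.ne
  | double W' H' S hS h' ih =>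
    have := mirror_finite h
    have := mirror_finite h'
    have h1 := Mirror.double (W × W') (H.boxProd H') {x | x.2 ∈ S} (by
      rintro ⟨v, w⟩ hw
      show dgr (H.boxProd H') (v, w) < _
      rw [dgr_box]
      have h2 := mirror_deg h v
      have h3 : dgr H' w < r' := hS w hw
      show dgr H v + dgr H' w < _
      omega) ih
    refine Mirror.embed _ _ _ _ (fun x : W × (W' × Bool) => ((x.1, x.2.1), x.2.2)) ?_ ?_ h1
    · rintro ⟨a, b, c⟩ ⟨a', b', c'⟩ h
      simp only [Prod.mk.injEq] at h
      obtain ⟨⟨rfl, rfl⟩, rfl⟩ := h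
      rfl
    · rintro ⟨a, b, c⟩ ⟨a', b', c'⟩ h
      rw [SimpleGraph.boxProd_adj] at h
      rcases h with ⟨h1, h2⟩ | ⟨h1, h2⟩
      · simp only [Prod.mk.injEq] at h1 h2
        obtain ⟨rfl, rfl⟩ := h2
        exact Or.inl ⟨rfl, SimpleGraph.boxProd_adj.2 (Or.inl ⟨h1, rfl⟩)⟩
      · simp only at h1 h2
        subst h2
        rcases h1 with ⟨h3, h4⟩ | ⟨h3, h4, h5⟩
        · exact Or.inl ⟨h3, SimpleGraph.boxProd_adj.2 (Or.inr ⟨h4, rfl⟩)⟩
        · exact Or.inr ⟨h3, Prod.ext rfl h4, h5⟩
  | embed W1 W' H1 H' φ hφ hom h' ih =>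
    refine Mirror.embed _ _ _ _ (fun x : W × W' => (x.1, φ x.2)) ?_ ?_ ih
    · rintro ⟨a, b⟩ ⟨a', b'⟩ h
      rw [Prod.mk.injEq] at h
      exact Prod.ext h.1 (hφ h.2)
    · rintro ⟨a, b⟩ ⟨a', b'⟩ h
      rw [SimpleGraph.boxProd_adj] at h ⊢
      rcases h with ⟨h1, h2⟩ | ⟨h1, h2⟩
      · exact Or.inl ⟨h1, congrArg φ h2⟩
      · exact Or.inr ⟨hom _ _ h1, h2⟩

/-! ### examples of mirror graphs -/

/-- forests of maximum degree at most `r` -/
theorem mirror_forest {r : ℕ} {W : Type} [Finite W] (H : SimpleGraph W) (h1 : Degen 1 H)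
    (hd : ∀ w, dgr H w ≤ r) : Mirror r W H := by
  have := Fintype.ofFinite W
  let HX : Finset W → SimpleGraph W := fun X =>
    { Adj := fun u v => H.Adj u v ∧ u ∈ X ∧ v ∈ X
      symm := ⟨fun u v h => ⟨h.1.symm, h.2.2, h.2.1⟩⟩
      loopless := ⟨fun u h => H.loopless.irrefl _ h.1⟩ }
  have key : ∀ n : ℕ, ∀ X : Finset W, X.card = n → Mirror r W (HX X) := by
    intro n
    induction n with
    | zero =>
      intro X hX
      have hX' : X = ∅ := card_eq_zero.1 hX
      -- the edgeless graph: repeated doubling along the empty set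
      have hedge : ∀ k : ℕ, ∀ U : Type, ∀ _ : Fintype U, Fintype.card U ≤ 2 ^ k →
          ∀ K : SimpleGraph U, (∀ u v, ¬ K.Adj u v) → Mirror r U K := by
        intro k
        induction k with
        | zero =>
          intro U _ hU K _
          exact Mirror.point U (Fintype.card_le_one_iff_subsingleton.1 (by simpa using hU)) K
        | succ k ih =>
          intro U _ hU K hK
          have h2 := Mirror.double (Fin (2 ^ k)) (⊥ : SimpleGraph (Fin (2 ^ k))) ∅
            (fun s hs => absurd hs (Set.notMem_empty s))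
            (ih (Fin (2 ^ k)) inferInstance (by simp) ⊥ (fun u v h => h))
          have h3 : Fintype.card U ≤ Fintype.card (Fin (2 ^ k) × Bool) := by
            rw [Fintype.card_prod, Fintype.card_fin, Fintype.card_bool]
            rw [pow_succ] at hU
            exact hU
          obtain ⟨φ⟩ := Function.Embedding.nonempty_of_card_le h3
          exact Mirror.embed _ U _ K φ φ.injective (fun u v h => absurd h (hK u v)) h2
      obtain ⟨k, hk⟩ : ∃ k, Fintype.card W ≤ 2 ^ k :=
        ⟨Fintype.card W, Nat.lt_two_pow_self.le⟩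
      refine hedge k W inferInstance hk (HX X) ?_
      rintro u v ⟨_, h2, _⟩
      rw [hX'] at h2
      exact notMem_empty _ h2
    | succ n ih =>
      intro X hX
      have hne : (X : Set W).Nonempty := by
        rw [Finset.coe_nonempty, ← card_pos]
        omega
      obtain ⟨v, hv, hv1⟩ := h1 X hne
      have hvX : v ∈ X := hv
      have hcard : (X.erase v).card = n := by
        rw [card_erase_of_mem hvX, hX]
        rfl
      have h2 := ih (X.erase v) hcard
      by_cases hu : ∃ u, u ∈ X ∧ H.Adj v u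
      · obtain ⟨u, huX, huv⟩ := hu
        have huniq : ∀ w, w ∈ X → H.Adj v w → w = u := by
          intro w hw hvw
          have h3 := (Set.ncard_le_one (Set.toFinite _)).1 hv1
          exact h3 w ⟨hw, hvw⟩ u ⟨huX, huv⟩
        have hdu : ((HX (X.erase v)).neighborSet u).ncard < r := by
          have h3 : insert v ((HX (X.erase v)).neighborSet u) ⊆ H.neighborSet u := by
            intro w hw
            rcases Set.mem_insert_iff.1 hw with rfl | hw
            · exact huv.symm
            · exact hw.1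
          have h4 := Set.ncard_le_ncard h3 (Set.toFinite _)
          rw [Set.ncard_insert_of_notMem (by
            rintro ⟨_, _, h5⟩
            exact notMem_erase v X h5) (Set.toFinite _)] at h4
          have h5 := hd u
          unfold dgr at h5
          omega
        have h3 := Mirror.double W (HX (X.erase v)) {u}
          (fun s hs => by rw [Set.mem_singleton_iff.1 hs]; exact hdu) h2
        refine Mirror.embed _ W _ (HX X) (fun w => if w = v then (u, true) else (w, false)) ?_ ?_ h3
        · intro a b hab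
          simp only at hab
          by_cases ha : a = v <;> by_cases hb : b = v
          · rw [ha, hb]
          · rw [if_pos ha, if_neg hb, Prod.mk.injEq] at hab
            exact Bool.noConfusion hab.2
          · rw [if_neg ha, if_pos hb, Prod.mk.injEq] at hab
            exact Bool.noConfusion hab.2
          · rw [if_neg ha, if_neg hb, Prod.mk.injEq] at hab
            exact hab.1
        · rintro a b ⟨hab, haX, hbX⟩
          by_cases ha : a = v
          · subst ha
            have hb : b = u := huniq b hbX hab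
            subst hb
            simp only [if_true]
            rw [if_neg hab.ne.symm]
            exact Or.inr ⟨by simp, rfl, rfl⟩
          · by_cases hb : b = v
            · subst hb
              have ha' : a = u := huniq a haX hab.symm
              subst ha'
              simp only [if_true]
              rw [if_neg ha]
              exact Or.inr ⟨by simp, rfl, rfl⟩
            · simp only [if_neg ha, if_neg hb]
              exact Or.inl ⟨rfl, hab, mem_erase.2 ⟨ha, haX⟩, mem_erase.2 ⟨hb, hbX⟩⟩
      · refine Mirror.embed W W _ (HX X) id Function.injective_id ?_ h2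
        rintro a b ⟨hab, haX, hbX⟩
        refine ⟨hab, mem_erase.2 ⟨?_, haX⟩, mem_erase.2 ⟨?_, hbX⟩⟩
        · rintro rfl
          exact hu ⟨b, hbX, hab⟩
        · rintro rfl
          exact hu ⟨a, haX, hab.symm⟩
  refine Mirror.embed W W _ H id Function.injective_id ?_ (key _ univ rfl)
  intro a b hab
  exact ⟨hab, mem_univ _, mem_univ _⟩

/-- the hypercube -/
def cube (r : ℕ) : SimpleGraph (Fin r → Bool) where
  Adj x y := ∃! i, x i ≠ y i
  symm := ⟨by
    rintro x y ⟨i, h1, h2⟩
    exact ⟨i, h1.symm, fun j hj => h2 j hj.symm⟩⟩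
  loopless := ⟨by
    rintro x ⟨i, h1, _⟩
    exact h1 rfl⟩

theorem mirror_cube (r : ℕ) : Mirror r (Fin r → Bool) (cube r) := by
  induction r with
  | zero => exact Mirror.point _ inferInstance _
  | succ r ih =>
    have h1 := Mirror.double (Fin r → Bool) (cube r) Set.univ (fun s _ => by
      have := mirror_deg ih s
      unfold dgr at this
      omega) (mirror_mono (Nat.le_succ r) ih)
    refine Mirror.embed _ _ _ _ (fun x : Fin (r + 1) → Bool => (Fin.tail x, x 0)) ?_ ?_ h1
    · intro x y h
      rw [Prod.mk.injEq] at h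
      rw [← Fin.cons_self_tail x, ← Fin.cons_self_tail y, h.1, h.2]
    · rintro x y ⟨i, hi, hu⟩
      by_cases h0 : x 0 = y 0
      · left
        refine ⟨h0, ?_⟩
        obtain ⟨j, rfl⟩ := Fin.exists_succ_eq.2 (show i ≠ 0 by
          rintro rfl
          exact hi h0)
        refine ⟨j, hi, fun k hk => ?_⟩
        exact Fin.succ_injective _ (hu k.succ hk)
      · right
        refine ⟨h0, ?_, Set.mem_univ _⟩
        funext k
        by_contra hk
        have h2 := hu k.succ hk
        have h3 := hu 0 h0
        rw [← h3] at h2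
        exact Fin.succ_ne_zero k h2

end Pool.Agent.R804.LD
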