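import Pool.Agent.R804.LD.Seed

/-! More colours. -/

set_option autoImplicit false

namespace Pool.Agent.R804.LD

open Finset
open scoped Classical

/-- the additional colour is forbidden everywhere -/
noncomputable def lft {V : Type} {D : ℕ} (M : V → Finset (Fin D)) : V → Finset (Fin (D + 1)) :=
  fun v => insert (Fin.last D) ((M v).map Fin.castSuccEmb)

lemma last_notMem {D : ℕ} (s : Finset (Fin D)) : Fin.last D ∉ s.map Fin.castSuccEmb := by
  intro h
  obtain ⟨a, _, ha⟩ := mem_map.1 h
  exact (Fin.castSucc_lt_last a).ne ha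

lemma ss_cast {D : ℕ} (a b : Fin D) : ss a.castSucc b.castSucc = ss a b := by
  unfold ss
  simp only [Fin.castSucc_lt_castSucc_iff]

lemma eps_lft {V : Type} {D : ℕ} (M : V → Finset (Fin D)) (c : Fin D) (v : V) :
    eps c.castSucc (lft M v) = - eps c (M v) := by
  unfold lft
  rw [eps_insert (last_notMem _)]
  have h1 : ss c.castSucc (Fin.last D) = -1 := by
    unfold ss
    have := Fin.castSucc_lt_last c
    simp [this, not_lt.2 this.le]
  have h2 : eps c.castSucc ((M v).map Fin.castSuccEmb) = eps c (M v) := by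
    unfold eps
    rw [prod_map]
    exact prod_congr rfl fun j _ => ss_cast c j
  rw [h1, h2]
  ring

lemma upd_lft {V : Type} [DecidableEq V] {D : ℕ} (M : V → Finset (Fin D)) (e : V × V)
    (c : Fin D) : upd (lft M) e c.castSucc = lft (upd M e c) := by
  funext w
  unfold upd lft
  by_cases h : w = e.1 ∨ w = e.2
  · simp only [if_pos h]
    rw [map_insert, insert_comm]
    rfl
  · simp only [if_neg h]

lemma A_lft {V : Type} [DecidableEq V] {D : ℕ} (l : List (V × V)) :
    ∀ M : V → Finset (Fin D), A l (lft M) = A l M := by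
  induction l with
  | nil => intro M; rfl
  | cons e l ih =>
    intro M
    show ∑ c : Fin (D + 1), eps c (lft M e.1) * eps c (lft M e.2) * A l (upd (lft M) e c) =
      ∑ c, eps c (M e.1) * eps c (M e.2) * A l (upd M e c)
    rw [Fin.sum_univ_castSucc]
    have h1 : eps (Fin.last D) (lft M e.1) = 0 := eps_mem (mem_insert_self _ _)
    rw [h1, zero_mul, zero_mul, add_zero]
    refine sum_congr rfl fun c _ => ?_
    rw [eps_lft, eps_lft, upd_lft, ih]
    ring

lemma good_succ {V : Type} [DecidableEq V] {D : ℕ} {l : List (V × V)} (h : Good D l) :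
    Good (D + 1) l := by
  obtain ⟨M, h1, h2⟩ := h
  refine ⟨lft M, fun v => ?_, by rw [A_lft]; exact h2⟩
  have h3 := h1 v
  unfold lft
  rw [card_insert_of_notMem (last_notMem _), card_map]
  omega

theorem gg_mono {V : Type} {D D' : ℕ} (h : D ≤ D') {G : SimpleGraph V} (hG : GG D G) :
    GG D' G := by
  induction h with
  | refl => exact hG
  | step h ih =>
    obtain ⟨l, hl, hg⟩ := ih
    exact ⟨l, hl, good_succ hg⟩

end Pool.Agent.R804.LD
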