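import Pool.Agent.R804.LD.Lst

/-! Permutations and sublists of the list of edges. -/

set_option autoImplicit false

namespace Pool.Agent.R804.LD

open Finset

variable {D : ℕ} {V : Type} [DecidableEq V]

lemma ss_anti (c d : Fin D) : ss c d = - ss d c := by
  unfold ss
  rcases lt_trichotomy c d with h | h | h
  · simp [h, not_lt.2 h.le]
  · simp [h]
  · simp [h, not_lt.2 h.le]

lemma upd_comm (M : V → Finset (Fin D)) (e f : V × V) (c d : Fin D) :
    upd (upd M e c) f d = upd (upd M f d) e c := by
  funext w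
  unfold upd
  split_ifs
  · rw [insert_comm]
  · rfl
  · rfl
  · rfl

/-- is `v` an end of `e`? -/
abbrev inE (v : V) (e : V × V) : Prop := v = e.1 ∨ v = e.2

lemma eps_upd (M : V → Finset (Fin D)) (e : V × V) (c d : Fin D) (v : V)
    (h : eps c (M e.1) * eps c (M e.2) ≠ 0) :
    eps d (upd M e c v) = (if inE v e then ss d c else 1) * eps d (M v) := by
  have h1 : c ∉ M e.1 := fun h1 => h (by rw [eps_mem h1, zero_mul])
  have h2 : c ∉ M e.2 := fun h1 => h (by rw [eps_mem h1, mul_zero])
  unfold upd inE
  by_cases hv : v = e.1 ∨ v = e.2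
  · rw [if_pos hv, if_pos hv, eps_insert]
    rcases hv with rfl | rfl
    · exact h1
    · exact h2
  · rw [if_neg hv, if_neg hv, one_mul]

lemma share (e f : V × V) (he : e.1 ≠ e.2) (hf : f.1 ≠ f.2) : ∃ s : ℤ, (s = 1 ∨ s = -1) ∧
    ∀ c d : Fin D, (if inE f.1 e then ss d c else 1) * (if inE f.2 e then ss d c else 1) =
      s * ((if inE e.1 f then ss c d else 1) * (if inE e.2 f then ss c d else 1)) := by
  obtain ⟨a, b⟩ := e
  obtain ⟨x, y⟩ := f
  simp only [ne_eq] at he hf
  unfold inE
  simp only
  by_cases h1 : x = a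
  · subst h1
    by_cases h2 : y = b
    · subst h2
      refine ⟨1, Or.inl rfl, fun c d => ?_⟩
      rw [ss_anti c d]
      simp
    · refine ⟨-1, Or.inr rfl, fun c d => ?_⟩
      rw [ss_anti c d]
      have h3 : ¬ (b = x ∨ b = y) := by
        rintro (h | h)
        · exact he h.symm
        · exact h2 h.symm
      have h4 : ¬ (y = x ∨ y = b) := by
        rintro (h | h)
        · exact hf h.symm
        · exact h2 h
      simp [h3, h4]
  · by_cases h2 : x = b
    · subst h2
      by_cases h3 : y = a
      · subst h3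
        refine ⟨1, Or.inl rfl, fun c d => ?_⟩
        rw [ss_anti c d]
        simp
      · refine ⟨-1, Or.inr rfl, fun c d => ?_⟩
        rw [ss_anti c d]
        have h4 : ¬ (a = x ∨ a = y) := by
          rintro (h | h)
          · exact he h
          · exact h3 h.symm
        have h5 : ¬ (y = a ∨ y = x) := by
          rintro (h | h)
          · exact h3 h
          · exact hf h.symm
        simp [h4, h5]
    · by_cases h3 : y = a
      · subst h3
        refine ⟨-1, Or.inr rfl, fun c d => ?_⟩
        rw [ss_anti c d]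
        have h4 : ¬ (x = y ∨ x = b) := by
          rintro (h | h)
          · exact h1 h
          · exact h2 h
        have h5 : ¬ (b = x ∨ b = y) := by
          rintro (h | h)
          · exact h2 h.symm
          · exact he h.symm
        simp [h4, h5]
      · by_cases h4 : y = b
        · subst h4
          refine ⟨-1, Or.inr rfl, fun c d => ?_⟩
          rw [ss_anti c d]
          have h4 : ¬ (x = a ∨ x = y) := by
            rintro (h | h)
            · exact h1 h
            · exact h2 h
          have h5 : ¬ (a = x ∨ a = y) := by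
            rintro (h | h)
            · exact h1 h.symm
            · exact h3 h.symm
          simp [h4, h5]
        · refine ⟨1, Or.inl rfl, fun c d => ?_⟩
          have h5 : ¬ (x = a ∨ x = b) := by tauto
          have h6 : ¬ (y = a ∨ y = b) := by tauto
          have h7 : ¬ (a = x ∨ a = y) := by
            rintro (h | h)
            · exact h1 h.symm
            · exact h3 h.symm
          have h8 : ¬ (b = x ∨ b = y) := by
            rintro (h | h)
            · exact h2 h.symm
            · exact h4 h.symm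
          simp [h5, h6, h7, h8]

lemma A_cons2 (e f : V × V) (l : List (V × V)) (M : V → Finset (Fin D)) :
    A (e :: f :: l) M = ∑ c, ∑ d, (eps c (M e.1) * eps c (M e.2)) *
      (eps d (M f.1) * eps d (M f.2)) *
      ((if inE f.1 e then ss d c else 1) * (if inE f.2 e then ss d c else 1)) *
      A l (upd (upd M e c) f d) := by
  show ∑ c, eps c (M e.1) * eps c (M e.2) * (∑ d, eps d (upd M e c f.1) * eps d (upd M e c f.2) *
    A l (upd (upd M e c) f d)) = _
  refine sum_congr rfl fun c _ => ?_
  rw [mul_sum]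
  refine sum_congr rfl fun d _ => ?_
  by_cases h : eps c (M e.1) * eps c (M e.2) = 0
  · rw [h]
    ring
  · rw [eps_upd M e c d _ h, eps_upd M e c d _ h]
    ring

lemma A_swap (e f : V × V) (l : List (V × V)) (he : e.1 ≠ e.2) (hf : f.1 ≠ f.2) :
    ∃ s : ℤ, (s = 1 ∨ s = -1) ∧ ∀ M : V → Finset (Fin D), A (e :: f :: l) M =
      s * A (f :: e :: l) M := by
  obtain ⟨s, hs, h⟩ := share (D := D) e f he hf
  refine ⟨s, hs, fun M => ?_⟩
  rw [A_cons2, A_cons2, sum_comm, mul_sum]
  refine sum_congr rfl fun c _ => ?_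
  rw [mul_sum]
  refine sum_congr rfl fun d _ => ?_
  rw [h d c, upd_comm M e f]
  ring

lemma A_perm {l l' : List (V × V)} (h : l.Perm l') (hl : ∀ e ∈ l, e.1 ≠ e.2) :
    ∃ s : ℤ, (s = 1 ∨ s = -1) ∧ ∀ M : V → Finset (Fin D), A l M = s * A l' M := by
  induction h with
  | nil => exact ⟨1, Or.inl rfl, fun M => (one_mul _).symm⟩
  | cons e h ih =>
    obtain ⟨s, hs, h1⟩ := ih (fun f hf => hl f (List.mem_cons_of_mem _ hf))
    refine ⟨s, hs, fun M => ?_⟩
    show ∑ c, _ = s * ∑ c, _
    rw [mul_sum]
    refine sum_congr rfl fun c _ => ?_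
    rw [h1]
    ring
  | swap e f l =>
    exact A_swap f e l (hl f (by simp)) (hl e (by simp))
  | trans h1 h2 ih1 ih2 =>
    obtain ⟨s, hs, h3⟩ := ih1 hl
    obtain ⟨t, ht, h4⟩ := ih2 (fun f hf => hl f (h1.mem_iff.2 hf))
    refine ⟨s * t, ?_, fun M => ?_⟩
    · rcases hs with rfl | rfl <;> rcases ht with rfl | rfl <;> norm_num
    · rw [h3, h4, mul_assoc]

lemma dg_perm {l l' : List (V × V)} (h : l.Perm l') (v : V) : dg l v = dg l' v :=
  h.countP_eq _

theorem good_perm {l l' : List (V × V)} (h : l.Perm l') (hl : ∀ e ∈ l, e.1 ≠ e.2)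
    (hG : Good D l) : Good D l' := by
  obtain ⟨M, h1, h2⟩ := hG
  obtain ⟨s, hs, h3⟩ := A_perm (D := D) h hl
  refine ⟨M, fun v => by rw [← dg_perm h]; exact h1 v, ?_⟩
  intro h4
  exact h2 (by rw [h3, h4, mul_zero])

theorem good_tail {e : V × V} {l : List (V × V)} (he : e.1 ≠ e.2) (hG : Good D (e :: l)) :
    Good D l := by
  obtain ⟨M, h1, h2⟩ := hG
  have h3 : ∃ c ∈ (univ : Finset (Fin D)), eps c (M e.1) * eps c (M e.2) * A l (upd M e c) ≠ 0 :=
    exists_ne_zero_of_sum_ne_zero h2
  obtain ⟨c, _, h3⟩ := h3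
  refine ⟨upd M e c, fun v => ?_, right_ne_zero_of_mul h3⟩
  have h4 := left_ne_zero_of_mul h3
  have h5 : c ∉ M e.1 := fun h => h4 (by rw [eps_mem h, zero_mul])
  have h6 : c ∉ M e.2 := fun h => h4 (by rw [eps_mem h, mul_zero])
  have h7 := h1 v
  rw [dg_cons] at h7
  unfold upd
  by_cases hv : v = e.1 ∨ v = e.2
  · rw [if_pos hv] at h7 ⊢
    rw [card_insert_of_notMem (by
      rcases hv with rfl | rfl
      · exact h5
      · exact h6)]
    omega
  · rw [if_neg hv] at h7 ⊢
    exact h7

theorem good_append (r : List (V × V)) {l : List (V × V)} (hl : ∀ e ∈ r ++ l, e.1 ≠ e.2)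
    (hG : Good D (r ++ l)) : Good D l := by
  induction r with
  | nil => exact hG
  | cons e r ih =>
    exact ih (fun f hf => hl f (List.mem_cons_of_mem _ hf)) (good_tail (hl e (by simp)) hG)

theorem good_sub {l l' : List (V × V)} (h : l'.Subperm l) (hl : ∀ e ∈ l, e.1 ≠ e.2)
    (hG : Good D l) : Good D l' := by
  obtain ⟨l1, h1, h2⟩ := h
  obtain ⟨r, hr⟩ := h2.exists_perm_append
  have h3 : l.Perm (r ++ l') := (hr.trans List.perm_append_comm).trans (h1.append_left r)
  exact good_append r (fun e he => hl e (h3.mem_iff.2 he)) (good_perm h3 hl hG)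

end Pool.Agent.R804.LD
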