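import Pool.Agent.R804.LD.Fin

/-! Regular graphs with a nonzero signed number of edge colourings are good. -/

set_option autoImplicit false

namespace Pool.Agent.R804.LD

open Finset Pool.Agent.W426.LE
open scoped Classical

variable {V : Type}

lemma exists_rep [Finite V] (G : SimpleGraph V) : ∃ l, Rep G l := by
  have := Fintype.ofFinite V
  let f : G.edgeSet → V × V := fun e => Quot.out e.1
  have hf : ∀ e : G.edgeSet, s((f e).1, (f e).2) = e.1 := fun e => Quot.out_eq e.1
  refine ⟨(univ : Finset G.edgeSet).toList.map f, ?_, ?_, ?_⟩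
  · intro q hq
    obtain ⟨e, _, rfl⟩ := List.mem_map.1 hq
    rw [← SimpleGraph.mem_edgeSet, hf]
    exact e.2
  · intro u v huv
    let e : G.edgeSet := ⟨s(u, v), huv⟩
    have h1 : f e ∈ (univ : Finset G.edgeSet).toList.map f :=
      List.mem_map.2 ⟨e, by simp, rfl⟩
    have h2 : s((f e).1, (f e).2) = s(u, v) := hf e
    rw [Sym2.eq_iff] at h2
    rcases h2 with ⟨h3, h4⟩ | ⟨h3, h4⟩
    · left
      rw [← h3, ← h4]
      exact h1
    · right
      rw [← h3, ← h4]
      exact h1
  · rw [List.map_map]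
    have h1 : ((fun e : V × V => s(e.1, e.2)) ∘ f) = fun e : G.edgeSet => e.1 := by
      funext e
      exact hf e
    rw [h1]
    exact (Finset.nodup_toList _).map Subtype.val_injective

lemma rep_bij {G : SimpleGraph V} {l : List (V × V)} (hl : Rep G l) :
    Function.Bijective (fun i : Fin l.length =>
      (⟨s((l.get i).1, (l.get i).2), hl.1 _ (List.get_mem l i)⟩ : G.edgeSet)) := by
  constructor
  · intro i j hij
    have h1 : s((l.get i).1, (l.get i).2) = s((l.get j).1, (l.get j).2) := congrArg Subtype.val hij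
    have h2 := rep_inj hl _ (List.get_mem l i) _ (List.get_mem l j) h1
    exact (List.nodup_iff_injective_get.1 (List.Nodup.of_map _ hl.2.2)) h2
  · rintro ⟨e, he⟩
    induction e using Sym2.ind with
    | _ u v =>
      rcases hl.2.1 u v he with h | h
      · obtain ⟨i, hi⟩ := List.mem_iff_get.1 h
        exact ⟨i, Subtype.ext (by simp only [hi])⟩
      · obtain ⟨i, hi⟩ := List.mem_iff_get.1 h
        exact ⟨i, Subtype.ext (by simp only [hi]; exact Sym2.eq_swap)⟩

/-- the signed number of a regular list in terms of enumerations of the positions -/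
lemma A_NN [Fintype V] {D : ℕ} (l : List (V × V)) (hl : ∀ e ∈ l, e.1 ≠ e.2)
    (φ : ∀ _ : V, Fin D ↪o Fin l.length)
    (hmem : ∀ v i, inE v (l.get i) ↔ ∃ a, φ v a = i) :
    A l (fun _ => (∅ : Finset (Fin D))) =
      ∑ x : Fin l.length → Fin D, ∏ v, sg (Equiv.refl (Fin D)) (fun a => x (φ v a)) := by
  rw [A_eq]
  refine sum_congr rfl fun x _ => ?_
  rw [WW_empty l hl]
  refine prod_congr rfl fun v _ => ?_
  rw [sg_eq_prod]
  have h1 : univ.filter (fun i => inE v (l.get i)) = univ.map (φ v).toEmbedding := by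
    ext i
    simp only [mem_filter, mem_univ, true_and, mem_map]
    exact hmem v i
  have h3 : ∀ a, univ.filter (fun j => inE v (l.get j) ∧ j < (φ v).toEmbedding a) =
      (Iio a).map (φ v).toEmbedding := by
    intro a
    ext j
    simp only [mem_filter, mem_univ, true_and, mem_map, mem_Iio]
    constructor
    · rintro ⟨h3, h4⟩
      obtain ⟨b, rfl⟩ := (hmem v j).1 h3
      exact ⟨b, (φ v).lt_iff_lt.1 h4, rfl⟩
    · rintro ⟨b, h3, rfl⟩
      exact ⟨(hmem v _).2 ⟨b, rfl⟩, (φ v).lt_iff_lt.2 h3⟩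
  have h4 : ∏ i ∈ univ.filter (fun i => inE v (l.get i)),
      ∏ j ∈ univ.filter (fun j => inE v (l.get j) ∧ j < i), ss (x i) (x j) =
      ∏ a, ∏ b ∈ Iio a, ss (x (φ v a)) (x (φ v b)) := by
    rw [h1, prod_map]
    refine prod_congr rfl fun a _ => ?_
    rw [h3, prod_map]
    rfl
  convert h4

lemma sg_transport {D : ℕ} {D' C : Type} [Fintype D'] (ρ : D' ≃ C) (κ : Fin D ≃ D')
    (π : D' ≃ Fin D) (f : Fin D → Fin D) :
    sg ρ (fun i => ρ (κ (f (π i)))) =
      ((Equiv.Perm.sign (κ.trans π) : ℤˣ) : ℤ) * sg (Equiv.refl (Fin D)) f := by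
  by_cases h : Function.Bijective f
  · obtain ⟨e, rfl⟩ := exists_equiv f h
    have h1 : (fun i => ρ (κ (e (π i)))) = ((((π.trans e).trans κ).trans ρ : D' ≃ C) : D' → C) :=
      rfl
    have h2 : (((π.trans e).trans κ).trans ρ).trans ρ.symm = (π.trans e).trans κ := by
      ext i
      simp
    have h3 : ((π.trans e).trans κ : Equiv.Perm D') =
        κ.permCongr ((κ.trans π).trans e : Equiv.Perm (Fin D)) := by
      ext i
      simp [Equiv.permCongr_apply]
    have h4 : sg (Equiv.refl (Fin D)) (e : Fin D → Fin D) =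
        ((Equiv.Perm.sign (e.trans (Equiv.refl (Fin D)).symm) : ℤˣ) : ℤ) := by
      have h2' : ∀ (i1 i2 : DecidableEq (Fin D)) (σ : Equiv.Perm (Fin D)),
          (@Equiv.Perm.sign _ i1 _ σ) = (@Equiv.Perm.sign _ i2 _ σ) := by
        intro i1 i2 σ
        rw [Subsingleton.elim i1 i2]
      rw [sg_equiv, h2' _ _]
    rw [h1, sg_equiv, h2, h3, Equiv.Perm.sign_permCongr, h4]
    have h5 : ((κ.trans π).trans e : Equiv.Perm (Fin D)) = e * (κ.trans π) := rfl
    have h6 : (e.trans (Equiv.refl (Fin D)).symm : Equiv.Perm (Fin D)) = e := rfl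
    rw [h5, h6, Equiv.Perm.sign_mul, Units.val_mul, mul_comm]
  · rw [sg_of_not (Equiv.refl (Fin D)) f h, mul_zero, sg_of_not]
    intro h1
    apply h
    have h2 : Function.Bijective (fun i => κ.symm (ρ.symm (ρ (κ (f (π (π.symm i))))))) :=
      κ.symm.bijective.comp (ρ.symm.bijective.comp (h1.comp π.symm.bijective))
    simpa using h2

/-- regular simple graphs with a nonzero signed number of colourings -/
theorem gg_of_NN {E D' C : Type} [Fintype V] [Fintype E] [Fintype D'] [Fintype C]
    (ρ : D' ≃ C) (inc : V → D' → E) (G : SimpleGraph V) (ψ : E ≃ G.edgeSet)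
    (h1 : ∀ v i, v ∈ (ψ (inc v i) : Sym2 V))
    (h2 : ∀ v e, v ∈ (ψ e : Sym2 V) → ∃ i, inc v i = e)
    (h3 : ∀ v, Function.Injective (inc v)) (hN : NN ρ inc ≠ 0) : GG (Fintype.card D') G := by
  obtain ⟨l, hl⟩ := exists_rep G
  set D := Fintype.card D' with hD
  let τ : Fin l.length ≃ G.edgeSet := Equiv.ofBijective _ (rep_bij hl)
  have hτ : ∀ i, ((τ i : G.edgeSet) : Sym2 V) = s((l.get i).1, (l.get i).2) := fun i => rfl
  have hpos : ∀ v i, inE v (l.get i) ↔ ∃ q : D', τ.symm (ψ (inc v q)) = i := by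
    intro v i
    constructor
    · intro h
      have h4 : v ∈ (ψ (ψ.symm (τ i)) : Sym2 V) := by
        rw [Equiv.apply_symm_apply, hτ, Sym2.mem_iff]
        exact h
      obtain ⟨q, hq⟩ := h2 v _ h4
      refine ⟨q, ?_⟩
      rw [hq, Equiv.apply_symm_apply, Equiv.symm_apply_apply]
    · rintro ⟨q, rfl⟩
      have h4 := h1 v q
      have h5 : (ψ (inc v q) : Sym2 V) =
          s((l.get (τ.symm (ψ (inc v q)))).1, (l.get (τ.symm (ψ (inc v q)))).2) := by
        rw [← hτ, Equiv.apply_symm_apply]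
      rw [h5, Sym2.mem_iff] at h4
      exact h4
  have hinj : ∀ v, Function.Injective (fun q : D' => τ.symm (ψ (inc v q))) := fun v =>
    τ.symm.injective.comp (ψ.injective.comp (h3 v))
  have hcard : ∀ v, (univ.filter (fun i => inE v (l.get i))).card = D := by
    intro v
    have h4 : univ.filter (fun i => inE v (l.get i)) =
        (univ : Finset D').image (fun q : D' => τ.symm (ψ (inc v q))) := by
      ext i
      simp only [mem_filter, mem_univ, true_and, mem_image]
      exact hpos v i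
    rw [h4, card_image_of_injective _ (hinj v), card_univ]
  let φ : ∀ _ : V, Fin D ↪o Fin l.length := fun v =>
    (univ.filter (fun i => inE v (l.get i))).orderEmbOfFin (hcard v)
  have hmem : ∀ v i, inE v (l.get i) ↔ ∃ a, φ v a = i := by
    intro v i
    have h4 : Set.range (φ v) = (univ.filter (fun i => inE v (l.get i)) :
      Set (Fin l.length)) := range_orderEmbOfFin _ _
    have h5 : i ∈ Set.range (φ v) ↔ i ∈ (univ.filter (fun i => inE v (l.get i)) :
      Set (Fin l.length)) := by rw [h4]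
    rw [Set.mem_range] at h5
    rw [h5]
    simp
  let κ : Fin D ≃ D' := (Fintype.equivFin D').symm
  have hπ : ∀ v q, ∃ a, φ v a = τ.symm (ψ (inc v q)) := fun v q =>
    (hmem v _).1 ((hpos v _).2 ⟨q, rfl⟩)
  choose π hπ using hπ
  have hπb : ∀ v, Function.Bijective (π v) := by
    intro v
    rw [Fintype.bijective_iff_injective_and_card]
    refine ⟨fun q q' h => hinj v ?_, by rw [Fintype.card_fin]⟩
    show τ.symm (ψ (inc v q)) = τ.symm (ψ (inc v q'))
    rw [← hπ, ← hπ, h]
  let P : ∀ _ : V, D' ≃ Fin D := fun v => Equiv.ofBijective (π v) (hπb v)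
  -- comparison of the sums
  have key : NN ρ inc = (∏ v, ((Equiv.Perm.sign (κ.trans (P v)) : ℤˣ) : ℤ)) *
      A l (fun _ => (∅ : Finset (Fin D))) := by
    rw [A_NN l (rep_ne hl) φ hmem, mul_sum]
    unfold NN
    let Θ : (Fin l.length → Fin D) ≃ (E → C) :=
      (Equiv.arrowCongr (τ.trans ψ.symm) (κ.trans ρ))
    rw [← Equiv.sum_comp Θ]
    refine sum_congr rfl fun x _ => ?_
    rw [← prod_mul_distrib]
    refine prod_congr rfl fun v _ => ?_
    rw [← sg_transport ρ κ (P v) (fun a => x (φ v a))]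
    congr 1
    funext q
    show (κ.trans ρ) (x ((τ.trans ψ.symm).symm (inc v q))) = ρ (κ (x (φ v (π v q))))
    rw [hπ]
    rfl
  refine ⟨l, hl, fun _ => ∅, fun v => ?_, fun h0 => hN (by rw [key, h0, mul_zero])⟩
  rw [card_empty, zero_add, ← card_inE]
  convert hcard v

end Pool.Agent.R804.LD
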